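import Mathlib

set_option autoImplicit false

namespace Pool.Agent.Helper685.Pack

open MeasureTheory Real Set
open scoped ENNReal

/-- point of the plane with given polar coordinates -/
noncomputable def pt (t θ : ℝ) : EuclideanSpace ℝ (Fin 2) := !₂[t * cos θ, t * sin θ]

lemma mp_pair : MeasurePreserving (fun q : ℝ × ℝ => (!₂[q.1, q.2] : EuclideanSpace ℝ (Fin 2))) := by
  have h1 := (volume_preserving_finTwoArrow ℝ).symm
  have h2 := PiLp.volume_preserving_toLp (Fin 2)
  exact h2.comp h1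

lemma vol_polar (T : Set (EuclideanSpace ℝ (Fin 2))) (hT : MeasurableSet T) :
    volume T = ∫⁻ p in polarCoord.target, ENNReal.ofReal p.1 * T.indicator 1 (pt p.1 p.2) := by
  have h1 := mp_pair.measure_preimage hT.nullMeasurableSet
  rw [← h1, ← lintegral_indicator_one (mp_pair.measurable hT),
    ← lintegral_comp_polarCoord_symm]
  rfl

/-- area of a star shaped region in polar coordinates -/
lemma polar_region (ρ : ℝ → ℝ) (hρ : Continuous ρ) (h0 : ∀ θ, 0 ≤ ρ θ) :
    ∫⁻ p in polarCoord.target, ENNReal.ofReal p.1 * {q : ℝ × ℝ | q.1 ≤ ρ q.2}.indicator 1 p =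
      ENNReal.ofReal (∫ θ in (-π)..π, ρ θ ^ 2 / 2) := by
  have hm : MeasurableSet {q : ℝ × ℝ | q.1 ≤ ρ q.2} :=
    measurableSet_le measurable_fst (hρ.measurable.comp measurable_snd)
  have hmeas : Measurable (fun p : ℝ × ℝ => ENNReal.ofReal p.1 *
      {q : ℝ × ℝ | q.1 ≤ ρ q.2}.indicator (1 : ℝ × ℝ → ℝ≥0∞) p) := by
    apply Measurable.mul
    · exact measurable_fst.ennreal_ofReal
    · exact measurable_one.indicator hm
  rw [polarCoord_target, Measure.volume_eq_prod, ← Measure.prod_restrict,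
    lintegral_prod_symm _ hmeas.aemeasurable]
  have hin : ∀ θ : ℝ, ∫⁻ t in Ioi (0 : ℝ), ENNReal.ofReal (t, θ).1 *
      {q : ℝ × ℝ | q.1 ≤ ρ q.2}.indicator 1 (t, θ) = ENNReal.ofReal (ρ θ ^ 2 / 2) := by
    intro θ
    have e1 : ∀ t : ℝ, ENNReal.ofReal (t, θ).1 * {q : ℝ × ℝ | q.1 ≤ ρ q.2}.indicator 1 (t, θ) =
        (Iic (ρ θ)).indicator (fun t => ENNReal.ofReal t) t := by
      intro t
      by_cases ht : t ≤ ρ θ
      · rw [indicator_of_mem (show (t, θ) ∈ {q : ℝ × ℝ | q.1 ≤ ρ q.2} from ht),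
          indicator_of_mem (show t ∈ Iic (ρ θ) from ht)]
        simp
      · rw [indicator_of_notMem (show (t, θ) ∉ {q : ℝ × ℝ | q.1 ≤ ρ q.2} from ht),
          indicator_of_notMem (show t ∉ Iic (ρ θ) from ht)]
        simp
    simp_rw [e1]
    rw [lintegral_indicator measurableSet_Iic, Measure.restrict_restrict measurableSet_Iic,
      show Iic (ρ θ) ∩ Ioi 0 = Ioc 0 (ρ θ) by ext; simp [and_comm],
      ← ofReal_integral_eq_lintegral_ofReal, ← intervalIntegral.integral_of_le (h0 θ)]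
    · congr 1
      rw [integral_id]; ring
    · exact (continuous_id.integrableOn_Icc).mono_set Ioc_subset_Icc_self
    · filter_upwards [ae_restrict_mem measurableSet_Ioc] with t ht
      exact ht.1.le
  simp_rw [hin]
  rw [← ofReal_integral_eq_lintegral_ofReal, intervalIntegral.integral_of_le (by linarith [pi_pos]),
    integral_Ioc_eq_integral_Ioo]
  · exact (((hρ.pow 2).div_const 2).integrableOn_Icc).mono_set Ioo_subset_Icc_self
  · exact Filter.Eventually.of_forall fun θ => by positivity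

lemma vol_le (T : Set (EuclideanSpace ℝ (Fin 2))) (hT : MeasurableSet T) (ρ : ℝ → ℝ)
    (hρ : Continuous ρ) (h0 : ∀ θ, 0 ≤ ρ θ) (h : ∀ t θ, 0 < t → pt t θ ∈ T → t ≤ ρ θ) :
    volume T ≤ ENNReal.ofReal (∫ θ in (-π)..π, ρ θ ^ 2 / 2) := by
  rw [vol_polar T hT, ← polar_region ρ hρ h0]
  have hm : MeasurableSet polarCoord.target := polarCoord.open_target.measurableSet
  apply setLIntegral_mono' hm
  intro p hp
  gcongr
  by_cases hpT : pt p.1 p.2 ∈ T
  · rw [indicator_of_mem hpT, indicator_of_mem]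
    · exact le_rfl
    · exact h _ _ hp.1 hpT
  · rw [indicator_of_notMem hpT]
    exact zero_le

lemma vol_ge (T : Set (EuclideanSpace ℝ (Fin 2))) (hT : MeasurableSet T) (ρ : ℝ → ℝ)
    (hρ : Continuous ρ) (h0 : ∀ θ, 0 ≤ ρ θ) (h : ∀ t θ, 0 < t → t ≤ ρ θ → pt t θ ∈ T) :
    ENNReal.ofReal (∫ θ in (-π)..π, ρ θ ^ 2 / 2) ≤ volume T := by
  rw [vol_polar T hT, ← polar_region ρ hρ h0]
  have hm : MeasurableSet polarCoord.target := polarCoord.open_target.measurableSet
  apply setLIntegral_mono' hm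
  intro p hp
  gcongr
  by_cases hpT : p ∈ {q : ℝ × ℝ | q.1 ≤ ρ q.2}
  · rw [indicator_of_mem hpT, indicator_of_mem]
    · exact le_rfl
    · exact h _ _ hp.1 hpT
  · rw [indicator_of_notMem hpT]
    exact zero_le

end Pool.Agent.Helper685.Pack
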