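import Mathlib
import Pool.Agent.Helper685.Pack.Polar

set_option autoImplicit false

namespace Pool.Agent.Helper685.Pack

open MeasureTheory Real Set
open scoped ENNReal

/-- value of the linear functional with direction `θ` -/
noncomputable def ip (v : EuclideanSpace ℝ (Fin 2)) (θ : ℝ) : ℝ := v 0 * cos θ + v 1 * sin θ

lemma ip_cont (v : EuclideanSpace ℝ (Fin 2)) : Continuous (ip v) := by
  unfold ip; fun_prop

lemma normsq (v : EuclideanSpace ℝ (Fin 2)) : ‖v‖ ^ 2 = v 0 ^ 2 + v 1 ^ 2 := by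
  rw [EuclideanSpace.norm_sq_eq, Fin.sum_univ_two]; simp

/-- decomposition of the distance from a point in polar coordinates -/
lemma dist_pt (v : EuclideanSpace ℝ (Fin 2)) (t θ : ℝ) :
    dist (pt t θ) v ^ 2 = (t - ip v θ) ^ 2 + (‖v‖ ^ 2 - ip v θ ^ 2) := by
  rw [dist_eq_norm, normsq, normsq]
  have e0 : (pt t θ - v) 0 = t * cos θ - v 0 := by simp [pt]
  have e1 : (pt t θ - v) 1 = t * sin θ - v 1 := by simp [pt]
  rw [e0, e1]
  unfold ip
  have := sin_sq_add_cos_sq θ
  linear_combination (t ^ 2) * this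

lemma ip_sq_le (v : EuclideanSpace ℝ (Fin 2)) (θ : ℝ) : ip v θ ^ 2 ≤ ‖v‖ ^ 2 := by
  rw [normsq]; unfold ip
  have := sin_sq_add_cos_sq θ
  have h : (v 0 ^ 2 + v 1 ^ 2) * (sin θ ^ 2 + cos θ ^ 2) - (v 0 * cos θ + v 1 * sin θ) ^ 2 =
      (v 0 * sin θ - v 1 * cos θ) ^ 2 := by ring
  rw [this, mul_one] at h
  nlinarith [sq_nonneg (v 0 * sin θ - v 1 * cos θ)]

lemma abs_ip_le (v : EuclideanSpace ℝ (Fin 2)) (θ : ℝ) : |ip v θ| ≤ ‖v‖ :=
  abs_le_of_sq_le_sq (ip_sq_le v θ) (norm_nonneg v)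

lemma int_affine (a b : ℝ) {f : ℝ → ℝ} (hf : Continuous f) :
    ∫ θ in (-π)..π, (a + b * f θ) = 2 * π * a + b * ∫ θ in (-π)..π, f θ := by
  have h1 : IntervalIntegrable (fun _ : ℝ => a) volume (-π) π :=
    continuous_const.intervalIntegrable _ _
  have h2 : IntervalIntegrable (fun θ : ℝ => b * f θ) volume (-π) π :=
    (continuous_const.mul hf).intervalIntegrable _ _
  rw [intervalIntegral.integral_add h1 h2, intervalIntegral.integral_const,
    intervalIntegral.integral_const_mul, smul_eq_mul]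
  ring

variable {n : ℕ} [NeZero n]

/-- support function of a finite family of points -/
noncomputable def sp (x : Fin n → EuclideanSpace ℝ (Fin 2)) (θ : ℝ) : ℝ :=
  Finset.univ.sup' Finset.univ_nonempty (fun i => ip (x i) θ)

lemma sp_cont (x : Fin n → EuclideanSpace ℝ (Fin 2)) : Continuous (sp x) := by
  unfold sp
  exact Continuous.finset_sup'_apply _ (fun i _ => ip_cont (x i))

lemma le_sp (x : Fin n → EuclideanSpace ℝ (Fin 2)) (i : Fin n) (θ : ℝ) : ip (x i) θ ≤ sp x θ :=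
  Finset.le_sup' (fun i => ip (x i) θ) (Finset.mem_univ i)

lemma exists_sp (x : Fin n → EuclideanSpace ℝ (Fin 2)) (θ : ℝ) : ∃ i, ip (x i) θ = sp x θ := by
  obtain ⟨i, _, h⟩ := Finset.exists_mem_eq_sup' Finset.univ_nonempty (fun i => ip (x i) θ)
  exact ⟨i, h.symm⟩

/-- the union of closed disks -/
def U (x : Fin n → EuclideanSpace ℝ (Fin 2)) (r : ℝ) : Set (EuclideanSpace ℝ (Fin 2)) :=
  ⋃ i, Metric.closedBall (x i) r

omit [NeZero n] in
lemma U_meas (x : Fin n → EuclideanSpace ℝ (Fin 2)) (r : ℝ) : MeasurableSet (U x r) :=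
  MeasurableSet.iUnion fun _ => Metric.isClosed_closedBall.measurableSet

/-- upper bound of the area -/
lemma area_le (x : Fin n → EuclideanSpace ℝ (Fin 2)) {r R : ℝ} (hR : ∀ i, ‖x i‖ ≤ R) (hr : R ≤ r) :
    volume (U x r) ≤ ENNReal.ofReal (π * r ^ 2 + r * (∫ θ in (-π)..π, sp x θ) + π * R ^ 2) := by
  have hR0 : 0 ≤ R := (norm_nonneg _).trans (hR 0)
  have hsp : ∀ θ, |sp x θ| ≤ R := by
    intro θ
    obtain ⟨i, hi⟩ := exists_sp x θ
    rw [← hi]
    exact (abs_ip_le _ _).trans (hR i)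
  refine (vol_le (U x r) (U_meas x r) (fun θ => r + sp x θ) (continuous_const.add (sp_cont x))
    (fun θ => by linarith [(abs_le.1 (hsp θ)).1]) ?_).trans ?_
  · intro t θ ht hmem
    obtain ⟨i, hi⟩ := mem_iUnion.1 hmem
    rw [Metric.mem_closedBall] at hi
    have h1 := dist_pt (x i) t θ
    have h2 := ip_sq_le (x i) θ
    have h3 : dist (pt t θ) (x i) ^ 2 ≤ r ^ 2 := pow_le_pow_left₀ dist_nonneg hi 2
    have h4 : (t - ip (x i) θ) ^ 2 ≤ r ^ 2 := by linarith
    have h5 := (abs_le_of_sq_le_sq' h4 (by linarith)).2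
    have h6 := le_sp x i θ
    linarith
  · apply ENNReal.ofReal_le_ofReal
    have hpi := pi_pos
    have e1 : ∫ θ in (-π)..π, (r + sp x θ) ^ 2 / 2 ≤
        ∫ θ in (-π)..π, (r ^ 2 / 2 + R ^ 2 / 2 + r * sp x θ) := by
      apply intervalIntegral.integral_mono_on (by linarith)
      · exact (((continuous_const.add (sp_cont x)).pow 2).div_const 2).intervalIntegrable _ _
      · exact (continuous_const.add (continuous_const.mul (sp_cont x))).intervalIntegrable _ _
      · intro θ _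
        have := sq_le_sq' (abs_le.1 (hsp θ)).1 (abs_le.1 (hsp θ)).2
        nlinarith
    refine e1.trans (le_of_eq ?_)
    rw [int_affine _ _ (sp_cont x)]
    ring

/-- lower bound of the area -/
lemma area_ge (x : Fin n → EuclideanSpace ℝ (Fin 2)) {r R : ℝ} (hR : ∀ i, ‖x i‖ ≤ R) (hr : R ≤ r)
    (hr0 : 0 < r) (h00 : x 0 = 0) :
    ENNReal.ofReal (π * r ^ 2 + r * (∫ θ in (-π)..π, sp x θ) - 2 * π * R ^ 2) ≤
      volume (U x r) := by
  have hR0 : 0 ≤ R := (norm_nonneg _).trans (hR 0)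
  have hsp0 : ∀ θ, 0 ≤ sp x θ := by
    intro θ
    have := le_sp x 0 θ
    rw [h00] at this
    simpa [ip] using this
  have hq : R ^ 2 / r ≤ r := by rw [div_le_iff₀ hr0]; nlinarith
  have hq0 : 0 ≤ R ^ 2 / r := by positivity
  refine le_trans ?_ (vol_ge (U x r) (U_meas x r) (fun θ => r + sp x θ - R ^ 2 / r)
    ((continuous_const.add (sp_cont x)).sub continuous_const)
    (fun θ => by linarith [hsp0 θ]) ?_)
  · apply ENNReal.ofReal_le_ofReal
    have hpi := pi_pos
    have e1 : ∫ θ in (-π)..π, (r ^ 2 / 2 - R ^ 2 + r * sp x θ) ≤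
        ∫ θ in (-π)..π, (r + sp x θ - R ^ 2 / r) ^ 2 / 2 := by
      apply intervalIntegral.integral_mono_on (by linarith)
      · exact (continuous_const.add (continuous_const.mul (sp_cont x))).intervalIntegrable _ _
      · exact ((((continuous_const.add (sp_cont x)).sub continuous_const).pow 2).div_const
          2).intervalIntegrable _ _
      · intro θ _
        have h1 : r * (R ^ 2 / r) = R ^ 2 := by field_simp
        have h2 := sq_nonneg (sp x θ - R ^ 2 / r)
        nlinarith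
    refine le_trans (le_of_eq ?_) e1
    rw [int_affine _ _ (sp_cont x)]
    ring
  · intro t θ ht hle
    obtain ⟨i, hi⟩ := exists_sp x θ
    apply mem_iUnion.2
    refine ⟨i, ?_⟩
    rw [Metric.mem_closedBall]
    refine (abs_le_of_sq_le_sq' ?_ hr0.le).2
    rw [dist_pt]
    have h1 : ‖x i‖ ^ 2 ≤ R ^ 2 := pow_le_pow_left₀ (norm_nonneg _) (hR i) 2
    rw [hi]
    have h2 := hsp0 θ
    have h3 := ip_sq_le (x i) θ
    rw [hi] at h3
    rcases le_total t (sp x θ) with h | h
    · nlinarith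
    · have h4 : (t - sp x θ) ^ 2 ≤ (r - R ^ 2 / r) ^ 2 :=
        pow_le_pow_left₀ (by linarith) (by linarith) 2
      have h5 : (r - R ^ 2 / r) ^ 2 = r ^ 2 - 2 * R ^ 2 + (R ^ 2 / r) * (R ^ 2 / r) := by
        field_simp
        ring
      have h6 : (R ^ 2 / r) * (R ^ 2 / r) ≤ R ^ 2 := by
        calc (R ^ 2 / r) * (R ^ 2 / r) ≤ r * (R ^ 2 / r) := by gcongr
          _ = R ^ 2 := by field_simp
      nlinarith [sq_nonneg (sp x θ)]

end Pool.Agent.Helper685.Pack
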