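import Mathlib

set_option autoImplicit false

namespace Pool.Agent.Helper685.Pack

/-- the six hexagonal functionals on the triangular lattice -/
def F : Fin 6 → ℤ × ℤ → ℤ
  | 0, p => p.1
  | 1, p => p.1 + p.2
  | 2, p => p.2
  | 3, p => -p.1
  | 4, p => -(p.1 + p.2)
  | 5, p => -p.2

lemma F_rel (j : Fin 6) (p : ℤ × ℤ) : F (j + 1) p = F j p + F (j + 2) p := by
  fin_cases j <;> simp [F] <;> try ring

lemma F_neg (j : Fin 6) (p : ℤ × ℤ) : F (j + 3) p = -F j p := by
  fin_cases j <;> simp [F]

lemma F_inj (j : Fin 6) {p q : ℤ × ℤ} (h1 : F j p = F j q) (h2 : F (j + 1) p = F (j + 1) q) :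
    p = q := by
  obtain ⟨a, b⟩ := p
  obtain ⟨c, d⟩ := q
  fin_cases j <;> simp [F] at h1 h2 <;> ext <;> simp <;> omega

lemma F_sum (p : ℤ × ℤ) : ∑ j, F j p = 0 := by
  simp [Fin.sum_univ_six, F]; ring

lemma bool6 : ∀ b0 b1 b2 b3 b4 b5 : Bool, (b0 && b1 && b2 && b3 && b4 && b5) = false →
    (1 : ℤ) + ((if b0 && b1 then 1 else 0) + (if b1 && b2 then 1 else 0)
      + (if b2 && b3 then 1 else 0) + (if b3 && b4 then 1 else 0)
      + (if b4 && b5 then 1 else 0) + (if b5 && b0 then 1 else 0)) ≤
    (if !b0 && !b1 && !b2 && !b3 && !b4 && !b5 then 1 else 0)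
      + ((if b0 then 1 else 0) + (if b1 then 1 else 0) + (if b2 then 1 else 0)
      + (if b3 then 1 else 0) + (if b4 then 1 else 0) + (if b5 then 1 else 0)) := by
  decide

/-- maxima of the functionals -/
def H (C : Finset (ℤ × ℤ)) (hC : C.Nonempty) (j : Fin 6) : ℤ := C.sup' hC (F j)

variable {C : Finset (ℤ × ℤ)} {hC : C.Nonempty}

lemma le_H (j : Fin 6) {p : ℤ × ℤ} (hp : p ∈ C) : F j p ≤ H C hC j := Finset.le_sup' (F j) hp

lemma exists_H (C : Finset (ℤ × ℤ)) (hC : C.Nonempty) (j : Fin 6) : ∃ p ∈ C, F j p = H C hC j := by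
  obtain ⟨p, hp, h⟩ := Finset.exists_mem_eq_sup' hC (F j)
  exact ⟨p, hp, h.symm⟩

/-- interior part -/
def inner (C : Finset (ℤ × ℤ)) (hC : C.Nonempty) : Finset (ℤ × ℤ) :=
  C.filter fun p => ∀ j, F j p ≠ H C hC j

/-- contact data of a finite lattice set with its hexagonal hull -/
structure Data (C : Finset (ℤ × ℤ)) (hC : C.Nonempty) (x y k : Fin 6 → ℤ) : Prop where
  xw : ∀ j, ∃ p ∈ C, F j p = H C hC j ∧ F (j + 1) p = H C hC (j + 1) - x j
  yw : ∀ j, ∃ p ∈ C, F (j + 1) p = H C hC (j + 1) ∧ F j p = H C hC j - y j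
  x0 : ∀ j, 0 ≤ x j
  y0 : ∀ j, 0 ≤ y j
  kk : ∀ j, (k j = 0 ∧ 1 ≤ x j ∧ 1 ≤ y j) ∨ k j = 1
  edge : ∀ j, 0 ≤ H C hC (j + 1) + H C hC (j + 5) - H C hC j - x j - y (j + 5)
  card : 2 ≤ C.card → (C.card : ℤ) ≤ (inner C hC).card +
    ∑ j, (H C hC (j + 1) + H C hC (j + 5) - H C hC j - x j - y (j + 5) + 1) - ∑ j, k j

theorem exists_data (C : Finset (ℤ × ℤ)) (hC : C.Nonempty) : ∃ x y k, Data C hC x y k := by
  classical
  have h1 : ∀ j, ∃ p ∈ C.filter (fun p => F j p = H C hC j),
      ∀ q ∈ C.filter (fun p => F j p = H C hC j), F (j + 1) q ≤ F (j + 1) p := by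
    intro j
    apply Finset.exists_max_image
    obtain ⟨p, hp, h⟩ := exists_H C hC j
    exact ⟨p, Finset.mem_filter.2 ⟨hp, h⟩⟩
  have h2 : ∀ j, ∃ p ∈ C.filter (fun p => F (j + 1) p = H C hC (j + 1)),
      ∀ q ∈ C.filter (fun p => F (j + 1) p = H C hC (j + 1)), F j q ≤ F j p := by
    intro j
    apply Finset.exists_max_image
    obtain ⟨p, hp, h⟩ := exists_H C hC (j + 1)
    exact ⟨p, Finset.mem_filter.2 ⟨hp, h⟩⟩
  choose P hP hPm using h1
  choose Q hQ hQm using h2
  have hP' : ∀ j, P j ∈ C ∧ F j (P j) = H C hC j := fun j => Finset.mem_filter.1 (hP j)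
  have hQ' : ∀ j, Q j ∈ C ∧ F (j + 1) (Q j) = H C hC (j + 1) := fun j => Finset.mem_filter.1 (hQ j)
  set x : Fin 6 → ℤ := fun j => H C hC (j + 1) - F (j + 1) (P j) with hx
  set y : Fin 6 → ℤ := fun j => H C hC j - F j (Q j) with hy
  set k : Fin 6 → ℤ := fun j => if x j = 0 then 1 else 0 with hk
  have hx0 : ∀ j, 0 ≤ x j := fun j => by
    have := le_H (hC := hC) (j + 1) (hP' j).1
    simp only [hx]; omega
  have hy0 : ∀ j, 0 ≤ y j := fun j => by
    have := le_H (hC := hC) j (hQ' j).1
    simp only [hy]; omega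
  have hxy : ∀ j, x j ≠ 0 → y j ≠ 0 := by
    intro j hne he
    apply hne
    have e1 : F j (Q j) = H C hC j := by simp only [hy] at he; omega
    have := hPm j (Q j) (Finset.mem_filter.2 ⟨(hQ' j).1, e1⟩)
    have h3 := hx0 j
    have h4 := (hQ' j).2
    simp only [hx] at h3 ⊢
    omega
  have hmem : ∀ j, ∀ p ∈ C.filter (fun p => F j p = H C hC j),
      F (j + 1) p ∈ Finset.Icc (H C hC j - H C hC (j + 5) + y (j + 5)) (H C hC (j + 1) - x j) := by
    intro j p hp
    rw [Finset.mem_Icc]
    have h3 := hPm j p hp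
    have hp' := Finset.mem_filter.1 hp
    have e1 : (j + 5 + 1 : Fin 6) = j := by fin_cases j <;> rfl
    have e2 : (j + 5 + 2 : Fin 6) = j + 1 := by fin_cases j <;> rfl
    have h4 := hQm (j + 5) p (by rw [e1]; exact hp)
    have h5 := F_rel (j + 5) p
    rw [e1, e2] at h5
    constructor
    · simp only [hy]; omega
    · simp only [hx]; omega
  have hcard : ∀ j, ((C.filter (fun p => F j p = H C hC j)).card : ℤ) ≤
      H C hC (j + 1) + H C hC (j + 5) - H C hC j - x j - y (j + 5) + 1 ∧
      0 ≤ H C hC (j + 1) + H C hC (j + 5) - H C hC j - x j - y (j + 5) := by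
    intro j
    have h3 : (C.filter (fun p => F j p = H C hC j)).card ≤
        (Finset.Icc (H C hC j - H C hC (j + 5) + y (j + 5)) (H C hC (j + 1) - x j)).card := by
      apply Finset.card_le_card_of_injOn (F (j + 1)) (hmem j)
      intro p hp q hq hpq
      have hp' := Finset.mem_filter.1 hp
      have hq' := Finset.mem_filter.1 hq
      exact F_inj j (hp'.2.trans hq'.2.symm) hpq
    rw [Int.card_Icc] at h3
    have h4 := Finset.mem_Icc.1 (hmem j (P j) (hP j))
    have h5 : H C hC j - H C hC (j + 5) + y (j + 5) ≤ H C hC (j + 1) - x j := h4.1.trans h4.2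
    constructor
    · omega
    · omega
  refine ⟨x, y, k, ?_, ?_, hx0, hy0, ?_, fun j => (hcard j).2, ?_⟩
  · intro j
    exact ⟨P j, (hP' j).1, (hP' j).2, by simp only [hx]; omega⟩
  · intro j
    exact ⟨Q j, (hQ' j).1, (hQ' j).2, by simp only [hy]; omega⟩
  · intro j
    by_cases h : x j = 0
    · right; simp only [hk]; rw [if_pos h]
    · left
      have h3 := hx0 j
      have h4 := hy0 j
      have h5 := hxy j h
      refine ⟨by simp only [hk]; rw [if_neg h], by omega, by omega⟩
  · intro hc2
    -- pointwise inequality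
    have hpt : ∀ p ∈ C, (1 : ℤ) + ∑ j, (if F j p = H C hC j ∧ F (j + 1) p = H C hC (j + 1) then 1 else 0)
        ≤ (if ∀ j, F j p ≠ H C hC j then 1 else 0) + ∑ j, (if F j p = H C hC j then 1 else 0) := by
      intro p hp
      have hnot : ¬ ∀ j, F j p = H C hC j := by
        intro hall
        have : C ⊆ {p} := by
          intro q hq
          rw [Finset.mem_singleton]
          have key : ∀ j, F j q = F j p := by
            intro j
            have a1 := le_H (hC := hC) j hq
            have a2 := le_H (hC := hC) (j + 3) hq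
            have a3 := hall j
            have a4 := hall (j + 3)
            rw [F_neg] at a2 a4
            omega
          exact F_inj 0 (key 0) (key _)
        have := Finset.card_le_card this
        rw [Finset.card_singleton] at this
        omega
      have hb := bool6 (decide (F 0 p = H C hC 0)) (decide (F 1 p = H C hC 1))
        (decide (F 2 p = H C hC 2)) (decide (F 3 p = H C hC 3)) (decide (F 4 p = H C hC 4))
        (decide (F 5 p = H C hC 5)) (by
          by_contra hcon
          apply hnot
          intro j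
          simp only [Bool.not_eq_false, Bool.and_eq_true, decide_eq_true_eq] at hcon
          obtain ⟨⟨⟨⟨⟨c0, c1⟩, c2⟩, c3⟩, c4⟩, c5⟩ := hcon
          fin_cases j <;> assumption)
      rw [Fin.sum_univ_six, Fin.sum_univ_six]
      have e3 : (∀ j, F j p ≠ H C hC j) ↔ (F 0 p ≠ H C hC 0 ∧ F 1 p ≠ H C hC 1 ∧ F 2 p ≠ H C hC 2
          ∧ F 3 p ≠ H C hC 3 ∧ F 4 p ≠ H C hC 4 ∧ F 5 p ≠ H C hC 5) := by
        constructor
        · intro h; exact ⟨h 0, h 1, h 2, h 3, h 4, h 5⟩
        · rintro ⟨c0, c1, c2, c3, c4, c5⟩ j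
          fin_cases j <;> assumption
      simp only [e3]
      simp only [Bool.and_eq_true, Bool.not_eq_true', decide_eq_true_eq, decide_eq_false_iff_not,
        and_assoc] at hb
      exact hb
    have hsum := Finset.sum_le_sum hpt
    rw [Finset.sum_add_distrib, Finset.sum_add_distrib, Finset.sum_const, Finset.sum_boole,
      Finset.sum_comm, Finset.sum_comm (s := C)] at hsum
    simp only [Finset.sum_boole] at hsum
    have hk2 : ∀ j, k j ≤ ((C.filter fun p => F j p = H C hC j ∧
        F (j + 1) p = H C hC (j + 1)).card : ℤ) := by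
      intro j
      simp only [hk]
      split_ifs with h
      · have : P j ∈ C.filter fun p => F j p = H C hC j ∧ F (j + 1) p = H C hC (j + 1) := by
          rw [Finset.mem_filter]
          refine ⟨(hP' j).1, (hP' j).2, ?_⟩
          simp only [hx] at h; omega
        have := Finset.card_pos.2 ⟨_, this⟩
        omega
      · positivity
    have hs1 := Finset.sum_le_sum (fun j (_ : j ∈ Finset.univ) => hk2 j)
    have hs2 := Finset.sum_le_sum (fun j (_ : j ∈ Finset.univ) => (hcard j).1)
    simp only [nsmul_eq_mul, mul_one] at hsum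
    unfold inner
    linarith

/-- sum of the six maxima -/
def A (C : Finset (ℤ × ℤ)) (hC : C.Nonempty) : ℤ := ∑ j, H C hC j

lemma A_nonneg (C : Finset (ℤ × ℤ)) (hC : C.Nonempty) : 0 ≤ A C hC := by
  obtain ⟨p, hp⟩ := hC
  rw [← F_sum p]
  exact Finset.sum_le_sum fun j _ => le_H j hp

lemma edge_sum (H x y : Fin 6 → ℤ) :
    ∑ j, (H (j + 1) + H (j + 5) - H j - x j - y (j + 5) + 1) =
      ∑ j, H j - ∑ j, (x j + y j) + 6 := by
  simp only [Fin.sum_univ_six]
  simp
  ring

theorem card_bound (C : Finset (ℤ × ℤ)) (hC : C.Nonempty) :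
    12 * (C.card : ℤ) ≤ A C hC ^ 2 + 6 * A C hC + 12 := by
  induction hn : C.card using Nat.strong_induction_on generalizing C with
  | _ n ih =>
    have hA := A_nonneg C hC
    rcases le_or_gt n 1 with h1 | h1
    · have : (n : ℤ) ≤ 1 := by exact_mod_cast h1
      nlinarith
    obtain ⟨x, y, k, hd⟩ := exists_data C hC
    have hc := hd.card (by omega)
    rw [edge_sum] at hc
    have hxy : ∀ j, 2 ≤ x j + y j + 2 * k j := by
      intro j
      have h0 := hd.x0 j
      have h0' := hd.y0 j
      rcases hd.kk j with h | h <;> omega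
    have hk1 : ∀ j, k j ≤ 1 := by
      intro j
      rcases hd.kk j with h | h <;> omega
    have hs1 : 12 ≤ ∑ j, (x j + y j) + 2 * ∑ j, k j := by
      have := Finset.sum_le_sum (fun j (_ : j ∈ Finset.univ) => hxy j)
      simp only [Fin.sum_univ_six] at this ⊢
      linarith
    have hs2 : ∑ j, k j ≤ 6 := by
      have := Finset.sum_le_sum (fun j (_ : j ∈ Finset.univ) => hk1 j)
      simp only [Fin.sum_univ_six] at this ⊢
      linarith
    have hmain : (C.card : ℤ) ≤ (inner C hC).card + A C hC := by
      unfold A; linarith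
    rw [hn] at hmain
    by_cases hi : (inner C hC).Nonempty
    · have hsub : inner C hC ⊆ C := Finset.filter_subset _ _
      have hlt : (inner C hC).card < n := by
        rw [← hn]
        apply Finset.card_lt_card
        refine ⟨hsub, fun hcon => ?_⟩
        obtain ⟨p, hp, hpH⟩ := exists_H C hC 0
        have := (Finset.mem_filter.1 (hcon hp)).2 0
        exact this hpH
      have h2 := ih _ hlt (inner C hC) hi rfl
      have h3 : A (inner C hC) hi ≤ A C hC - 6 := by
        have : ∀ j, H (inner C hC) hi j ≤ H C hC j - 1 := by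
          intro j
          obtain ⟨p, hp, hpH⟩ := exists_H (inner C hC) hi j
          have h4 := Finset.mem_filter.1 hp
          have h5 := le_H (hC := hC) j h4.1
          have h6 := h4.2 j
          omega
        have := Finset.sum_le_sum (fun j (_ : j ∈ Finset.univ) => this j)
        unfold A
        simp only [Fin.sum_univ_six] at this ⊢
        linarith
      have h4 := A_nonneg (inner C hC) hi
      nlinarith
    · rw [Finset.not_nonempty_iff_eq_empty] at hi
      rw [hi] at hmain
      simp at hmain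
      nlinarith [sq_nonneg (A C hC - 3)]

/-- the three cases for sets of 54 points -/
theorem cases54 (C : Finset (ℤ × ℤ)) (hC : C.Nonempty) (h54 : C.card = 54)
    {x y k : Fin 6 → ℤ} (hd : Data C hC x y k) :
    ∃ E : ℤ, 0 ≤ E ∧ ∑ j, (x j + y j) = A C hC - E ∧
      (26 ≤ A C hC ∨ (A C hC = 25 ∧ 8 ≤ E) ∨ (A C hC = 24 ∧ 12 ≤ E) ∨ (A C hC = 23 ∧ 19 ≤ E) ∨
        (A C hC = 24 ∧ E = 11 ∧ (∀ j, 1 ≤ x j) ∧ (∀ j, 1 ≤ y j))) := by
  have hc := hd.card (by omega)
  rw [edge_sum, h54] at hc
  push_cast at hc
  refine ⟨A C hC - ∑ j, (x j + y j), ?_, by ring, ?_⟩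
  · have := Finset.sum_nonneg (fun j (_ : j ∈ Finset.univ) => hd.edge j)
    unfold A
    simp only [Fin.sum_univ_six] at this ⊢
    simp at this
    linarith
  · have hb := card_bound C hC
    rw [h54] at hb
    push_cast at hb
    have hA := A_nonneg C hC
    have hA23 : 23 ≤ A C hC := by
      by_contra hcon
      push Not at hcon
      have : A C hC ≤ 22 := by omega
      nlinarith
    -- interior
    have hin : 12 * ((inner C hC).card : ℤ) ≤ (A C hC - 6) ^ 2 + 6 * (A C hC - 6) + 12 := by
      by_cases hi : (inner C hC).Nonempty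
      · have h2 := card_bound (inner C hC) hi
        have h3 : A (inner C hC) hi ≤ A C hC - 6 := by
          have : ∀ j, H (inner C hC) hi j ≤ H C hC j - 1 := by
            intro j
            obtain ⟨p, hp, hpH⟩ := exists_H (inner C hC) hi j
            have h4 := Finset.mem_filter.1 hp
            have h5 := le_H (hC := hC) j h4.1
            have h6 := h4.2 j
            omega
          have := Finset.sum_le_sum (fun j (_ : j ∈ Finset.univ) => this j)
          unfold A
          simp only [Fin.sum_univ_six] at this ⊢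
          linarith
        have h4 := A_nonneg (inner C hC) hi
        nlinarith
      · rw [Finset.not_nonempty_iff_eq_empty] at hi
        rw [hi]
        simp only [Finset.card_empty, Nat.cast_zero, mul_zero]
        nlinarith
    have hxy : ∀ j, 2 ≤ x j + y j + 2 * k j := by
      intro j
      have h0 := hd.x0 j
      have h0' := hd.y0 j
      rcases hd.kk j with h | h <;> omega
    have hk0 : ∀ j, 0 ≤ k j := by
      intro j
      rcases hd.kk j with h | h <;> omega
    have hs1 : 12 ≤ ∑ j, (x j + y j) + 2 * ∑ j, k j := by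
      have := Finset.sum_le_sum (fun j (_ : j ∈ Finset.univ) => hxy j)
      simp only [Fin.sum_univ_six] at this ⊢
      linarith
    have hs0 : 0 ≤ ∑ j, k j := Finset.sum_nonneg (fun j _ => hk0 j)
    set K := ∑ j, k j with hK
    set X := ∑ j, (x j + y j) with hX
    have hAA : ∑ j, H C hC j = A C hC := rfl
    rw [hAA] at hc
    by_cases h26 : 26 ≤ A C hC
    · exact Or.inl h26
    · right
      have hcases : A C hC = 23 ∨ A C hC = 24 ∨ A C hC = 25 := by omega
      rcases hcases with h | h | h
      · rw [h] at hin hc ⊢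
        norm_num at hin
        right; right; left
        omega
      · rw [h] at hin hc ⊢
        norm_num at hin
        by_cases hE : 12 ≤ 24 - X
        · right; left; exact ⟨rfl, hE⟩
        · right; right; right
          have hK0 : K = 0 := by omega
          have hz : ∀ j, k j = 0 := by
            intro j
            have := (Finset.sum_eq_zero_iff_of_nonneg (fun j _ => hk0 j)).1 (hK.symm.trans hK0)
            exact this j (Finset.mem_univ j)
          refine ⟨rfl, by omega, ?_, ?_⟩
          · intro j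
            have := hz j
            rcases hd.kk j with h | h <;> omega
          · intro j
            have := hz j
            rcases hd.kk j with h | h <;> omega
      · rw [h] at hin hc ⊢
        norm_num at hin
        left
        exact ⟨rfl, by omega⟩

end Pool.Agent.Helper685.Pack
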