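import Mathlib
import Pool.Agent.Helper685.Pack.Balls

set_option autoImplicit false

namespace Pool.Agent.Helper685.Pack

open MeasureTheory Real Set
open scoped ENNReal

lemma int_ip_sq (w : EuclideanSpace ℝ (Fin 2)) : ∫ θ in (-π)..π, ip w θ ^ 2 = π * ‖w‖ ^ 2 := by
  have h : ∀ θ, ip w θ ^ 2 = w 0 ^ 2 * cos θ ^ 2 + (w 1 ^ 2 * sin θ ^ 2 +
      2 * w 0 * w 1 * (sin θ * cos θ)) := by
    intro θ; unfold ip; ring
  simp_rw [h]
  have c1 : IntervalIntegrable (fun θ : ℝ => w 0 ^ 2 * cos θ ^ 2) volume (-π) π := by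
    apply Continuous.intervalIntegrable; fun_prop
  have c2 : IntervalIntegrable (fun θ : ℝ => w 1 ^ 2 * sin θ ^ 2) volume (-π) π := by
    apply Continuous.intervalIntegrable; fun_prop
  have c3 : IntervalIntegrable (fun θ : ℝ => 2 * w 0 * w 1 * (sin θ * cos θ)) volume (-π) π := by
    apply Continuous.intervalIntegrable; fun_prop
  rw [intervalIntegral.integral_add c1 (c2.add c3), intervalIntegral.integral_add c2 c3,
    intervalIntegral.integral_const_mul, intervalIntegral.integral_const_mul,
    intervalIntegral.integral_const_mul, integral_cos_sq, integral_sin_sq,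
    integral_sin_mul_cos₁, normsq]
  simp
  ring

lemma two_ball (w : EuclideanSpace ℝ (Fin 2)) {r : ℝ} (hw0 : w ≠ 0) (hw : ‖w‖ ≤ r) :
    ENNReal.ofReal (π * r ^ 2 + π * r * ‖w‖) ≤
      volume (Metric.closedBall (-w) r ∪ Metric.closedBall w r) := by
  have hwp : 0 < ‖w‖ := norm_pos_iff.2 hw0
  have hr0 : 0 < r := lt_of_lt_of_le hwp hw
  have hpi := pi_pos
  have hmeas : MeasurableSet (Metric.closedBall (-w) r ∪ Metric.closedBall w r) :=
    Metric.isClosed_closedBall.measurableSet.union Metric.isClosed_closedBall.measurableSet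
  have hcont : Continuous (fun θ => |ip w θ| + √(r ^ 2 - (‖w‖ ^ 2 - ip w θ ^ 2))) := by
    have := ip_cont w
    fun_prop
  have hnn : ∀ θ, 0 ≤ r ^ 2 - (‖w‖ ^ 2 - ip w θ ^ 2) := by
    intro θ
    have : ‖w‖ ^ 2 ≤ r ^ 2 := pow_le_pow_left₀ hwp.le hw 2
    nlinarith [sq_nonneg (ip w θ)]
  refine le_trans ?_ (vol_ge _ hmeas _ hcont (fun θ => by positivity) ?_)
  · apply ENNReal.ofReal_le_ofReal
    have e1 : ∫ θ in (-π)..π, ((r ^ 2 / 2 - ‖w‖ ^ 2 / 2) + (1 + r / ‖w‖) * ip w θ ^ 2) ≤
        ∫ θ in (-π)..π, (|ip w θ| + √(r ^ 2 - (‖w‖ ^ 2 - ip w θ ^ 2))) ^ 2 / 2 := by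
      apply intervalIntegral.integral_mono_on (by linarith)
      · exact (continuous_const.add (continuous_const.mul ((ip_cont w).pow 2))).intervalIntegrable _ _
      · exact ((hcont.pow 2).div_const 2).intervalIntegrable _ _
      · intro θ _
        have h1 := sq_sqrt (hnn θ)
        have h2 := sq_abs (ip w θ)
        have h3 : r / ‖w‖ * |ip w θ| ≤ √(r ^ 2 - (‖w‖ ^ 2 - ip w θ ^ 2)) := by
          apply le_sqrt_of_sq_le
          have h4 := ip_sq_le w θ
          rw [mul_pow, div_pow, h2, div_mul_eq_mul_div, div_le_iff₀ (by positivity)]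
          have h5 : ‖w‖ ^ 2 ≤ r ^ 2 := pow_le_pow_left₀ hwp.le hw 2
          nlinarith [mul_nonneg (sub_nonneg.2 h5) (sub_nonneg.2 h4)]
        have h6 : |ip w θ| * (r / ‖w‖ * |ip w θ|) ≤
            |ip w θ| * √(r ^ 2 - (‖w‖ ^ 2 - ip w θ ^ 2)) :=
          mul_le_mul_of_nonneg_left h3 (abs_nonneg _)
        have h7 : |ip w θ| * (r / ‖w‖ * |ip w θ|) = r / ‖w‖ * ip w θ ^ 2 := by
          rw [← h2]; ring
        rw [h7] at h6
        nlinarith
    refine le_trans (le_of_eq ?_) e1
    rw [int_affine _ _ (f := fun θ => ip w θ ^ 2) ((ip_cont w).pow 2), int_ip_sq]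
    field_simp
    ring
  · intro t θ ht hle
    have hs0 : 0 ≤ √(r ^ 2 - (‖w‖ ^ 2 - ip w θ ^ 2)) := sqrt_nonneg _
    have hs1 := sq_sqrt (hnn θ)
    set s := √(r ^ 2 - (‖w‖ ^ 2 - ip w θ ^ 2)) with hs
    have habs : |ip w θ| ≤ s := by
      rw [hs]
      apply le_sqrt_of_sq_le
      rw [sq_abs]
      have : ‖w‖ ^ 2 ≤ r ^ 2 := pow_le_pow_left₀ hwp.le hw 2
      linarith
    rcases le_total 0 (ip w θ) with h | h
    · right
      rw [Metric.mem_closedBall]
      refine (abs_le_of_sq_le_sq' ?_ hr0.le).2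
      rw [dist_pt]
      rw [abs_of_nonneg h] at hle habs
      have : (t - ip w θ) ^ 2 ≤ s ^ 2 := sq_le_sq' (by linarith) (by linarith)
      linarith
    · left
      rw [Metric.mem_closedBall]
      refine (abs_le_of_sq_le_sq' ?_ hr0.le).2
      rw [dist_pt]
      have hneg : ip (-w) θ = -ip w θ := by unfold ip; simp; ring
      rw [hneg, norm_neg]
      rw [abs_of_nonpos h] at hle habs
      have : (t - -ip w θ) ^ 2 ≤ s ^ 2 := sq_le_sq' (by linarith) (by linarith)
      nlinarith

lemma one_ball {r : ℝ} (hr : 0 ≤ r) (a : EuclideanSpace ℝ (Fin 2)) :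
    volume (Metric.closedBall a r) = ENNReal.ofReal (π * r ^ 2) := by
  rw [EuclideanSpace.volume_closedBall_fin_two, ← ENNReal.ofReal_pow hr,
    ← ENNReal.ofReal_mul (by positivity), mul_comm]

variable {n : ℕ} [NeZero n]

omit [NeZero n] in
lemma U_translate (x : Fin n → EuclideanSpace ℝ (Fin 2)) (v : EuclideanSpace ℝ (Fin 2)) (r : ℝ) :
    volume (U (fun i => x i + v) r) = volume (U x r) := by
  have : U (fun i => x i + v) r = (fun z => z - v) ⁻¹' (U x r) := by
    unfold U
    ext z
    simp only [mem_iUnion, Metric.mem_closedBall, mem_preimage, dist_eq_norm]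
    apply exists_congr
    intro i
    rw [show z - (x i + v) = z - v - x i by abel]
  rw [this]
  have h := measurePreserving_sub_right (volume : Measure (EuclideanSpace ℝ (Fin 2))) v
  exact h.measure_preimage (U_meas x r).nullMeasurableSet

omit [NeZero n] in
/-- two far apart centres force a large area -/
lemma far_area (x : Fin n → EuclideanSpace ℝ (Fin 2)) {r D : ℝ} (hD : 0 < D) (hDr : D ≤ 2 * r)
    {i j : Fin n} (hij : D ≤ dist (x i) (x j)) :
    ENNReal.ofReal (π * r ^ 2 + π * r * (D / 2)) ≤ volume (U x r) := by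
  have hpi := pi_pos
  have hr0 : 0 < r := by linarith
  have hsub : Metric.closedBall (x i) r ∪ Metric.closedBall (x j) r ⊆ U x r := by
    apply union_subset
    · exact subset_iUnion (fun i => Metric.closedBall (x i) r) i
    · exact subset_iUnion (fun i => Metric.closedBall (x i) r) j
  refine le_trans ?_ (measure_mono hsub)
  rcases le_or_gt (dist (x i) (x j)) (2 * r) with h | h
  · -- translate to the midpoint
    set m := (1 / 2 : ℝ) • (x i + x j) with hm
    set w := (1 / 2 : ℝ) • (x j - x i) with hw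
    have hwn : ‖w‖ = dist (x i) (x j) / 2 := by
      rw [hw, norm_smul, dist_eq_norm, norm_sub_rev (x j)]
      norm_num; ring
    have hw0 : w ≠ 0 := by
      rw [← norm_pos_iff, hwn]; linarith
    have h2 := two_ball w hw0 (r := r) (by rw [hwn]; linarith)
    have e1 : Metric.closedBall (x i) r ∪ Metric.closedBall (x j) r =
        (fun z => z - m) ⁻¹' (Metric.closedBall (-w) r ∪ Metric.closedBall w r) := by
      have a1 : m + -w = x i := by
        rw [hm, hw]; module
      have a2 : m + w = x j := by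
        rw [hm, hw]; module
      ext z
      simp only [mem_union, Metric.mem_closedBall, mem_preimage, dist_eq_norm]
      rw [← a1, ← a2, show z - (m + -w) = z - m - -w by abel, show z - (m + w) = z - m - w by abel]
    have hmeas : MeasurableSet (Metric.closedBall (-w) r ∪ Metric.closedBall w r) :=
      Metric.isClosed_closedBall.measurableSet.union Metric.isClosed_closedBall.measurableSet
    rw [e1, (measurePreserving_sub_right (volume : Measure (EuclideanSpace ℝ (Fin 2)))
      m).measure_preimage hmeas.nullMeasurableSet]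
    refine le_trans (ENNReal.ofReal_le_ofReal ?_) h2
    rw [hwn]
    have : π * r * (D / 2) ≤ π * r * (dist (x i) (x j) / 2) := by gcongr
    linarith
  · have hdisj : Disjoint (Metric.closedBall (x i) r) (Metric.closedBall (x j) r) :=
      Metric.closedBall_disjoint_closedBall (by linarith)
    rw [measure_union hdisj Metric.isClosed_closedBall.measurableSet, one_ball hr0.le,
      one_ball hr0.le, ← ENNReal.ofReal_add (by positivity) (by positivity)]
    apply ENNReal.ofReal_le_ofReal
    have : π * r * (D / 2) ≤ π * r * r := by gcongr; linarith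
    nlinarith

omit [NeZero n] in
lemma lsc (r : ℝ) : LowerSemicontinuous (fun x : Fin n → EuclideanSpace ℝ (Fin 2) =>
    volume (U x r)) := by
  intro x y hy
  -- exhaustion by smaller disks
  set V : ℕ → Set (EuclideanSpace ℝ (Fin 2)) := fun m => U x (r - 1 / ((m : ℝ) + 1)) with hV
  have hmono : Monotone V := by
    intro a b hab
    simp only [hV]
    unfold U
    apply iUnion_mono
    intro i
    apply Metric.closedBall_subset_closedBall
    have : (1 : ℝ) / ((b : ℝ) + 1) ≤ 1 / ((a : ℝ) + 1) := by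
      apply one_div_le_one_div_of_le (by positivity)
      have : (a : ℝ) ≤ b := by exact_mod_cast hab
      linarith
    linarith
  have hsub : U x r ⊆ (⋃ m, V m) ∪ ⋃ i, Metric.sphere (x i) r := by
    intro z hz
    obtain ⟨i, hi⟩ := mem_iUnion.1 hz
    rw [Metric.mem_closedBall] at hi
    rcases hi.eq_or_lt with h | h
    · right
      exact mem_iUnion.2 ⟨i, h⟩
    · left
      obtain ⟨m, hm⟩ := exists_nat_one_div_lt (sub_pos.2 h)
      refine mem_iUnion.2 ⟨m, mem_iUnion.2 ⟨i, ?_⟩⟩
      rw [Metric.mem_closedBall]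
      linarith
  have hle : volume (U x r) ≤ ⨆ m, volume (V m) := by
    rw [← hmono.measure_iUnion]
    refine (measure_mono hsub).trans ((measure_union_le _ _).trans ?_)
    have h0 : volume (⋃ i, Metric.sphere (x i) r) = 0 := by
      rw [measure_iUnion_null_iff]
      intro i
      exact Measure.addHaar_sphere _ _ _
    rw [h0, add_zero]
  obtain ⟨m, hm⟩ := lt_iSup_iff.1 (lt_of_lt_of_le hy hle)
  have hδ : (0 : ℝ) < 1 / ((m : ℝ) + 1) := by positivity
  filter_upwards [Metric.ball_mem_nhds x hδ] with x' hx'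
  refine lt_of_lt_of_le hm (measure_mono ?_)
  simp only [hV]
  unfold U
  apply iUnion_mono
  intro i z hz
  rw [Metric.mem_closedBall] at hz ⊢
  have h1 : dist (x i) (x' i) ≤ dist x x' := dist_le_pi_dist x x' i
  have h2 : dist x' x < 1 / ((m : ℝ) + 1) := hx'
  rw [dist_comm] at h2
  have h3 := dist_triangle z (x i) (x' i)
  linarith

/-- existence of an optimal packing -/
theorem exists_min (r D : ℝ) (x0 : Fin n → EuclideanSpace ℝ (Fin 2))
    (h0 : Pairwise fun j k => (2 : ℝ) ≤ dist (x0 j) (x0 k))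
    (hfar : ∀ x : Fin n → EuclideanSpace ℝ (Fin 2), (∃ i j, D ≤ dist (x i) (x j)) →
      volume (U x0 r) < volume (U x r)) :
    ∃ c : Fin n → EuclideanSpace ℝ (Fin 2), (Pairwise fun j k => (2 : ℝ) ≤ dist (c j) (c k)) ∧
      c 0 = 0 ∧ (∀ i, ‖c i‖ ≤ D) ∧
      ∀ x : Fin n → EuclideanSpace ℝ (Fin 2),
        (Pairwise fun j k => (2 : ℝ) ≤ dist (x j) (x k)) → volume (U c r) ≤ volume (U x r) := by
  set K : Set (Fin n → EuclideanSpace ℝ (Fin 2)) :=
    {x | (∀ j k, j ≠ k → (2 : ℝ) ≤ dist (x j) (x k)) ∧ x 0 = 0 ∧ ∀ i, ‖x i‖ ≤ D} with hK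
  have hKc : IsCompact K := by
    have hclosed : IsClosed K := by
      have e : K = (⋂ j, ⋂ k, {x | j ≠ k → (2 : ℝ) ≤ dist (x j) (x k)}) ∩ ({x | x 0 = 0} ∩
          ⋂ i, {x | ‖x i‖ ≤ D}) := by
        ext x; simp [hK]
      rw [e]
      refine IsClosed.inter ?_ (IsClosed.inter ?_ ?_)
      · apply isClosed_iInter; intro j
        apply isClosed_iInter; intro k
        by_cases hjk : j ≠ k
        · simp only [hjk, ne_eq, not_false_eq_true, forall_const]
          apply isClosed_le continuous_const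
          fun_prop
        · simp [hjk]
      · exact isClosed_eq (by fun_prop) continuous_const
      · apply isClosed_iInter; intro i
        exact isClosed_le (by fun_prop) continuous_const
    apply Metric.isCompact_of_isClosed_isBounded hclosed
    apply (Metric.isBounded_closedBall (x := (0 : Fin n → EuclideanSpace ℝ (Fin 2)))
      (r := |D|)).subset
    intro x hx
    rw [Metric.mem_closedBall, dist_pi_le_iff (abs_nonneg D)]
    intro i
    rw [Pi.zero_apply, dist_zero_right]
    exact (hx.2.2 i).trans (le_abs_self D)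
  -- translating a configuration of small diameter into `K`
  have htrans : ∀ x : Fin n → EuclideanSpace ℝ (Fin 2),
      (Pairwise fun j k => (2 : ℝ) ≤ dist (x j) (x k)) → (¬ ∃ i j, D ≤ dist (x i) (x j)) →
      (fun i => x i + -x 0) ∈ K := by
    intro x hx hd
    push Not at hd
    refine ⟨fun j k hjk => ?_, by simp, fun i => ?_⟩
    · have := hx hjk
      simpa using this
    · have := hd i 0
      rw [dist_eq_norm] at this
      show ‖x i + -x 0‖ ≤ D
      rw [← sub_eq_add_neg]
      exact this.le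
  have hx0 : (fun i => x0 i + -x0 0) ∈ K := by
    apply htrans x0 h0
    intro hcon
    exact lt_irrefl _ (hfar x0 hcon)
  obtain ⟨c, hcK, hc⟩ := LowerSemicontinuousOn.exists_isMinOn ⟨_, hx0⟩ hKc
    ((lsc (n := n) r).lowerSemicontinuousOn K)
  refine ⟨c, fun j k hjk => hcK.1 j k hjk, hcK.2.1, hcK.2.2, fun x hx => ?_⟩
  by_cases hd : ∃ i j, D ≤ dist (x i) (x j)
  · refine le_trans ?_ (hfar x hd).le
    have := hc hx0
    simp only [Set.mem_ofPred_eq] at this
    rwa [U_translate] at this
  · have := hc (htrans x hx hd)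
    simp only [Set.mem_ofPred_eq] at this
    rwa [U_translate] at this

end Pool.Agent.Helper685.Pack
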