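import Mathlib
import Pool.Agent.Helper685.Pack.Exist

set_option autoImplicit false

namespace Pool.Agent.Helper685.Pack

open MeasureTheory Real Set

/-- thousandfold coordinates of the centres; the first fourteen are the hull vertices -/
def pc : Fin 54 → ℤ × ℤ := ![
    (-7154, -1428), (-6254, -3215), (-4659, -5289), (-2989, -6390), (-459, -7017), (1538, -7131),
    (4634, -5572), (6829, -2226), (7026, 1234), (5226, 4808), (2329, 6709), (-1666, 6937),
    (-4762, 5378), (-6957, 2032), (836, -1884), (1934, -211), (-64, -97), (-1162, -1770),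
    (2834, -1998), (3931, -325), (4129, 3135), (1034, 1576), (-964, 1690), (-2962, 1804),
    (-2062, 17), (-3159, -1656), (-2259, -3443), (-262, -3557), (1736, -3671), (-1359, -5230),
    (638, -5344), (2636, -5458), (3734, -3785), (4831, -2112), (6126, 3021), (5929, -439),
    (1231, 5036), (2131, 3249), (-3862, 3591), (-5859, 3705), (-1864, 3477), (-4959, 1918),
    (-4059, 131), (-5157, -1542), (-4257, -3329), (331, 6823), (3229, 4922), (-766, 5150),
    (134, 3363), (-2764, 5264), (-6057, 245), (3031, 1462), (5029, 1348), (5731, -3899)]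

/-- triangles of hull vertices containing the other centres -/
def tri : Fin 54 → Fin 54 × Fin 54 × Fin 54 := ![
    (0, 1, 2), (0, 1, 2), (0, 1, 2), (0, 1, 2), (0, 1, 2), (0, 1, 2), (0, 1, 2), (0, 1, 2), (0, 1, 2),
    (0, 1, 2), (0, 1, 2), (0, 1, 2), (0, 1, 2), (0, 1, 2), (0, 6, 7), (0, 7, 8), (0, 7, 8), (0, 6, 7),
    (0, 7, 8), (0, 7, 8), (0, 8, 9), (0, 8, 9), (0, 8, 9), (0, 9, 10), (0, 8, 9), (0, 6, 7), (0, 5, 6),
    (0, 6, 7), (0, 6, 7), (0, 5, 6), (0, 5, 6), (0, 5, 6), (0, 6, 7), (0, 6, 7), (0, 8, 9), (0, 7, 8),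
    (0, 9, 10), (0, 8, 9), (0, 11, 12), (0, 12, 13), (0, 10, 11), (0, 11, 12), (0, 8, 9), (0, 6, 7), (0, 4, 5),
    (0, 10, 11), (0, 9, 10), (0, 10, 11), (0, 9, 10), (0, 11, 12), (0, 11, 12), (0, 8, 9), (0, 8, 9), (0, 6, 7)]

def cross (a b : ℤ × ℤ) : ℤ := a.1 * b.2 - a.2 * b.1

lemma pc_sep : ∀ i j : Fin 54, i ≠ j →
    4000000 ≤ ((pc i).1 - (pc j).1) ^ 2 + ((pc i).2 - (pc j).2) ^ 2 := by
  decide +kernel

lemma pc_norm : ∀ i : Fin 54, (pc i).1 ^ 2 + (pc i).2 ^ 2 ≤ 64000000 := by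
  decide +kernel

lemma pc_tri : ∀ i : Fin 54, i.val < 14 ∨
    ((tri i).1.val < 14 ∧ (tri i).2.1.val < 14 ∧ (tri i).2.2.val < 14 ∧
      0 ≤ cross (pc (tri i).2.1 - pc i) (pc (tri i).2.2 - pc i) ∧
      0 ≤ cross (pc (tri i).2.2 - pc i) (pc (tri i).1 - pc i) ∧
      0 ≤ cross (pc (tri i).1 - pc i) (pc (tri i).2.1 - pc i) ∧
      0 < cross (pc (tri i).2.1 - pc i) (pc (tri i).2.2 - pc i) +
        cross (pc (tri i).2.2 - pc i) (pc (tri i).1 - pc i) +
        cross (pc (tri i).1 - pc i) (pc (tri i).2.1 - pc i)) := by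
  decide +kernel

/-- the explicit configuration of 54 centres -/
noncomputable def x0 (i : Fin 54) : EuclideanSpace ℝ (Fin 2) :=
  !₂[((pc i).1 : ℝ) / 1000, ((pc i).2 : ℝ) / 1000]

lemma x0_zero (i : Fin 54) : (x0 i) 0 = ((pc i).1 : ℝ) / 1000 := by simp [x0]
lemma x0_one (i : Fin 54) : (x0 i) 1 = ((pc i).2 : ℝ) / 1000 := by simp [x0]

lemma x0_dist (i j : Fin 54) : dist (x0 i) (x0 j) ^ 2 =
    (((((pc i).1 - (pc j).1) ^ 2 + ((pc i).2 - (pc j).2) ^ 2 : ℤ)) : ℝ) / 1000000 := by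
  rw [dist_eq_norm, normsq]
  simp only [PiLp.sub_apply, x0_zero, x0_one]
  push_cast
  ring

lemma x0_sep : Pairwise fun j k => (2 : ℝ) ≤ dist (x0 j) (x0 k) := by
  intro i j hij
  have h := pc_sep i j hij
  have h2 : (4000000 : ℝ) ≤ (((((pc i).1 - (pc j).1) ^ 2 + ((pc i).2 - (pc j).2) ^ 2 : ℤ)) : ℝ) := by
    exact_mod_cast h
  have h3 := x0_dist i j
  have h4 : (2 : ℝ) ^ 2 ≤ dist (x0 i) (x0 j) ^ 2 := by rw [h3]; linarith
  exact (abs_le_of_sq_le_sq' h4 dist_nonneg).2

lemma x0_norm (i : Fin 54) : ‖x0 i‖ ≤ 8 := by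
  have h := pc_norm i
  have h2 : ((((pc i).1) ^ 2 + ((pc i).2) ^ 2 : ℤ) : ℝ) ≤ 64000000 := by exact_mod_cast h
  have h3 : ‖x0 i‖ ^ 2 ≤ 8 ^ 2 := by
    rw [normsq, x0_zero, x0_one]
    push_cast at h2
    nlinarith
  exact (abs_le_of_sq_le_sq' h3 (by norm_num)).2

/-- closed path through the hull vertices -/
def pv (k : ℕ) : Fin 54 := ⟨k % 14, by omega⟩

/-- upper bounds for the thousandfold edge lengths -/
def ub : Fin 14 → ℕ := ![2001, 2617, 2001, 2607, 2001, 3467, 4002, 3466, 4002, 3466, 4002, 3467, 4002, 3466]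

lemma ub_spec : ∀ k : Fin 14, ((pc (pv (k + 1))).1 - (pc (pv k)).1) ^ 2 +
    ((pc (pv (k + 1))).2 - (pc (pv k)).2) ^ 2 ≤ (ub k : ℤ) ^ 2 := by
  decide +kernel

lemma ub_sum : ∑ k, ub k = 44567 := by decide +kernel

lemma edge_le (k : Fin 14) : dist (x0 (pv (k + 1))) (x0 (pv k)) ≤ (ub k : ℝ) / 1000 := by
  have h := ub_spec k
  have h2 : (((((pc (pv (k + 1))).1 - (pc (pv k)).1) ^ 2 +
    ((pc (pv (k + 1))).2 - (pc (pv k)).2) ^ 2 : ℤ)) : ℝ) ≤ (ub k : ℝ) ^ 2 := by exact_mod_cast h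
  have h3 := x0_dist (pv (k + 1)) (pv k)
  have h4 : dist (x0 (pv (k + 1))) (x0 (pv k)) ^ 2 ≤ ((ub k : ℝ) / 1000) ^ 2 := by
    rw [h3, div_pow, show (1000 : ℝ) ^ 2 = 1000000 by norm_num]
    exact div_le_div_of_nonneg_right h2 (by norm_num)
  exact (abs_le_of_sq_le_sq' h4 (by positivity)).2

lemma hull_max (i : Fin 54) (θ : ℝ) : ∃ k : ℕ, k < 14 ∧ ip (x0 i) θ ≤ ip (x0 (pv k)) θ := by
  rcases pc_tri i with h | ⟨ha, hb, hc, h1, h2, h3, h4⟩
  · refine ⟨i, h, le_of_eq ?_⟩
    have : pv i = i := by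
      ext; simp only [pv]; omega
    rw [this]
  · set a := (tri i).1 with hadef
    set b := (tri i).2.1 with hbdef
    set c := (tri i).2.2 with hcdef
    have ea : pv a = a := by ext; simp only [pv]; omega
    have eb : pv b = b := by ext; simp only [pv]; omega
    have ec : pv c = c := by ext; simp only [pv]; omega
    by_contra hcon
    push Not at hcon
    have ga := hcon a ha
    have gb := hcon b hb
    have gc := hcon c hc
    rw [ea] at ga
    rw [eb] at gb
    rw [ec] at gc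
    set α := cross (pc b - pc i) (pc c - pc i) with hα
    set β := cross (pc c - pc i) (pc a - pc i) with hβ
    set γ := cross (pc a - pc i) (pc b - pc i) with hγ
    have k1 : α * ((pc a).1 - (pc i).1) + β * ((pc b).1 - (pc i).1) + γ * ((pc c).1 - (pc i).1) = 0 := by
      rw [hα, hβ, hγ]; simp only [cross, Prod.fst_sub, Prod.snd_sub]; ring
    have k2 : α * ((pc a).2 - (pc i).2) + β * ((pc b).2 - (pc i).2) + γ * ((pc c).2 - (pc i).2) = 0 := by
      rw [hα, hβ, hγ]; simp only [cross, Prod.fst_sub, Prod.snd_sub]; ring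
    have k1' : (α : ℝ) * ((pc a).1 - (pc i).1) + β * ((pc b).1 - (pc i).1) +
        γ * ((pc c).1 - (pc i).1) = 0 := by exact_mod_cast k1
    have k2' : (α : ℝ) * ((pc a).2 - (pc i).2) + β * ((pc b).2 - (pc i).2) +
        γ * ((pc c).2 - (pc i).2) = 0 := by exact_mod_cast k2
    have h1' : (0 : ℝ) ≤ α := by exact_mod_cast h1
    have h2' : (0 : ℝ) ≤ β := by exact_mod_cast h2
    have h3' : (0 : ℝ) ≤ γ := by exact_mod_cast h3
    have h4' : (0 : ℝ) < α + β + γ := by exact_mod_cast h4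
    have hz : (α : ℝ) * (ip (x0 a) θ - ip (x0 i) θ) + β * (ip (x0 b) θ - ip (x0 i) θ) +
        γ * (ip (x0 c) θ - ip (x0 i) θ) = 0 := by
      unfold ip
      simp only [x0_zero, x0_one]
      linear_combination (cos θ / 1000) * k1' + (sin θ / 1000) * k2'
    have p1 : (α : ℝ) * (ip (x0 a) θ - ip (x0 i) θ) ≤ 0 :=
      mul_nonpos_of_nonneg_of_nonpos h1' (by linarith)
    have p2 : (β : ℝ) * (ip (x0 b) θ - ip (x0 i) θ) ≤ 0 :=
      mul_nonpos_of_nonneg_of_nonpos h2' (by linarith)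
    have p3 : (γ : ℝ) * (ip (x0 c) θ - ip (x0 i) θ) ≤ 0 :=
      mul_nonpos_of_nonneg_of_nonpos h3' (by linarith)
    have z1 : (α : ℝ) = 0 := by
      rcases h1'.eq_or_lt with h | h
      · exact h.symm
      · have := mul_neg_of_pos_of_neg h (sub_neg.2 ga); linarith
    have z2 : (β : ℝ) = 0 := by
      rcases h2'.eq_or_lt with h | h
      · exact h.symm
      · have := mul_neg_of_pos_of_neg h (sub_neg.2 gb); linarith
    have z3 : (γ : ℝ) = 0 := by
      rcases h3'.eq_or_lt with h | h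
      · exact h.symm
      · have := mul_neg_of_pos_of_neg h (sub_neg.2 gc); linarith
    rw [z1, z2, z3] at h4'
    norm_num at h4'

/-- oscillation of a closed path -/
lemma cyc (f : ℕ → ℝ) {M : ℕ} (hM : f M = f 0) {a b : ℕ} (ha : a ≤ M) (hb : b ≤ M) :
    f a - f b ≤ (1 / 2) * ∑ k ∈ Finset.range M, |f (k + 1) - f k| := by
  have main : ∀ a b : ℕ, a ≤ b → b ≤ M →
      |f b - f a| ≤ (1 / 2) * ∑ k ∈ Finset.range M, |f (k + 1) - f k| := by
    intro a b hab hbM
    have seg : ∀ m n : ℕ, m ≤ n → |f n - f m| ≤ ∑ k ∈ Finset.Ico m n, |f (k + 1) - f k| := by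
      intro m n hmn
      have := dist_le_Ico_sum_dist f hmn
      simp only [Real.dist_eq] at this
      rw [abs_sub_comm]
      refine this.trans (le_of_eq ?_)
      apply Finset.sum_congr rfl
      intro k _
      rw [abs_sub_comm]
    have s1 := seg 0 a (Nat.zero_le _)
    have s2 := seg a b hab
    have s3 := seg b M hbM
    have e1 := Finset.sum_Ico_consecutive (fun k => |f (k + 1) - f k|) (Nat.zero_le a) hab
    have e2 := Finset.sum_Ico_consecutive (fun k => |f (k + 1) - f k|) (Nat.zero_le b) hbM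
    rw [← Nat.Ico_zero_eq_range, ← e2, ← e1]
    rw [hM] at s3
    have t : |f b - f a| ≤ |f a - f 0| + |f 0 - f b| := by
      rw [abs_sub_comm (f b) (f a), show f a - f b = (f a - f 0) + (f 0 - f b) by ring]
      exact abs_add_le _ _
    linarith
  rcases le_total a b with h | h
  · have := main a b h hb
    rw [abs_sub_comm] at this
    exact (le_abs_self _).trans this
  · exact (le_abs_self _).trans (main b a h ha)

lemma ip_pi (v : EuclideanSpace ℝ (Fin 2)) (θ : ℝ) : ip v (θ + π) = -ip v θ := by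
  unfold ip; rw [cos_add_pi, sin_add_pi]; ring

lemma ip_sub (v w : EuclideanSpace ℝ (Fin 2)) (θ : ℝ) : ip (v - w) θ = ip v θ - ip w θ := by
  unfold ip; simp; ring

lemma width (θ : ℝ) : sp x0 θ + sp x0 (θ + π) ≤
    (1 / 2) * ∑ k ∈ Finset.range 14, |ip (x0 (pv (k + 1)) - x0 (pv k)) θ| := by
  obtain ⟨i, hi⟩ := exists_sp x0 θ
  obtain ⟨j, hj⟩ := exists_sp x0 (θ + π)
  obtain ⟨a, ha, hia⟩ := hull_max i θ
  obtain ⟨b, hb, hjb⟩ := hull_max j (θ + π)
  rw [hj, ip_pi] at hjb
  rw [hi] at hia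
  have h := cyc (fun k => ip (x0 (pv k)) θ) (M := 14) rfl ha.le hb.le
  simp only [← ip_sub] at h
  simp only [ip_sub] at h ⊢
  linarith

lemma int_abs_cos : ∫ θ in (-π)..π, |cos θ| = 4 := by
  have hper : Function.Periodic (fun θ : ℝ => |cos θ|) π := by
    intro θ; simp only [cos_add_pi, abs_neg]
  have hint : ∀ a b : ℝ, IntervalIntegrable (fun θ : ℝ => |cos θ|) volume a b := fun a b =>
    (continuous_cos.abs).intervalIntegrable a b
  have e1 := hper.intervalIntegral_add_eq (-π) (-(π / 2))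
  have e2 := hper.intervalIntegral_add_eq 0 (-(π / 2))
  have e3 : ∫ θ in (-(π / 2))..(-(π / 2) + π), |cos θ| = 2 := by
    have : ∀ θ ∈ uIcc (-(π / 2)) (-(π / 2) + π), |cos θ| = cos θ := by
      intro θ hθ
      rw [uIcc_of_le (by linarith [pi_pos])] at hθ
      exact abs_of_nonneg (cos_nonneg_of_neg_pi_div_two_le_of_le hθ.1 (by linarith [hθ.2]))
    rw [intervalIntegral.integral_congr this, integral_cos]
    rw [show -(π / 2) + π = π / 2 by ring, sin_neg, sin_pi_div_two]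
    norm_num
  rw [e3] at e1 e2
  rw [show -π + π = 0 by ring] at e1
  rw [zero_add] at e2
  rw [← intervalIntegral.integral_add_adjacent_intervals (hint (-π) 0) (hint 0 π), e1, e2]
  norm_num

lemma polar_form (e : EuclideanSpace ℝ (Fin 2)) : ∃ α : ℝ, e 0 = ‖e‖ * cos α ∧ e 1 = ‖e‖ * sin α := by
  set z : ℂ := ⟨e 0, e 1⟩ with hz
  have hn : ‖z‖ = ‖e‖ := by
    have h1 : ‖z‖ ^ 2 = ‖e‖ ^ 2 := by
      rw [normsq, ← Complex.normSq_eq_norm_sq, Complex.normSq_apply]
      simp [hz]; ring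
    have := (pow_left_inj₀ (norm_nonneg z) (norm_nonneg e) (by norm_num : (2 : ℕ) ≠ 0)).1 h1
    exact this
  refine ⟨z.arg, ?_, ?_⟩
  · rw [← hn, Complex.norm_mul_cos_arg]
  · rw [← hn, Complex.norm_mul_sin_arg]

lemma int_abs_ip (e : EuclideanSpace ℝ (Fin 2)) : ∫ θ in (-π)..π, |ip e θ| = 4 * ‖e‖ := by
  obtain ⟨α, h0, h1⟩ := polar_form e
  have h : ∀ θ, |ip e θ| = ‖e‖ * |cos (θ - α)| := by
    intro θ
    unfold ip
    rw [h0, h1, show ‖e‖ * cos α * cos θ + ‖e‖ * sin α * sin θ = ‖e‖ * cos (θ - α) by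
      rw [cos_sub]; ring, abs_mul, abs_norm]
  simp_rw [h]
  rw [intervalIntegral.integral_const_mul, intervalIntegral.integral_comp_sub_right
    (fun θ => |cos θ|)]
  have hper : Function.Periodic (fun θ : ℝ => |cos θ|) (2 * π) := by
    intro θ; simp only [cos_add_two_pi]
  have e1 := hper.intervalIntegral_add_eq (-π - α) (-π)
  rw [show -π - α + 2 * π = π - α by ring, show -π + 2 * π = π by ring] at e1
  rw [e1, int_abs_cos]
  ring

lemma sp_per {n : ℕ} [NeZero n] (x : Fin n → EuclideanSpace ℝ (Fin 2)) :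
    Function.Periodic (sp x) (2 * π) := by
  intro θ
  unfold sp ip
  simp only [cos_add_two_pi, sin_add_two_pi]

/-- the integral of the support function of the explicit configuration -/
theorem upper : ∫ θ in (-π)..π, sp x0 θ ≤ 44.567 := by
  have hc := sp_cont x0
  have e1 : ∫ θ in (-π)..π, sp x0 (θ + π) = ∫ θ in (-π)..π, sp x0 θ := by
    rw [intervalIntegral.integral_comp_add_right (fun θ => sp x0 θ)]
    have := (sp_per x0).intervalIntegral_add_eq (-π + π) (-π)
    rw [show -π + π + 2 * π = π + π by ring, show -π + 2 * π = π by ring] at this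
    exact this
  have e2 : ∫ θ in (-π)..π, (sp x0 θ + sp x0 (θ + π)) = 2 * ∫ θ in (-π)..π, sp x0 θ := by
    have i1 : IntervalIntegrable (fun θ => sp x0 θ) volume (-π) π := hc.intervalIntegrable _ _
    have i2 : IntervalIntegrable (fun θ => sp x0 (θ + π)) volume (-π) π :=
      (hc.comp (continuous_id.add continuous_const)).intervalIntegrable _ _
    rw [intervalIntegral.integral_add i1 i2, e1]
    ring
  have e3 : ∫ θ in (-π)..π, (sp x0 θ + sp x0 (θ + π)) ≤ ∫ θ in (-π)..π,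
      ((1 / 2) * ∑ k ∈ Finset.range 14, |ip (x0 (pv (k + 1)) - x0 (pv k)) θ|) := by
    apply intervalIntegral.integral_mono_on (by linarith [pi_pos])
    · exact (hc.add (hc.comp (continuous_id.add continuous_const))).intervalIntegrable _ _
    · apply Continuous.intervalIntegrable
      apply continuous_const.mul
      apply continuous_finsetSum
      intro k _
      exact (ip_cont _).abs
    · intro θ _
      exact width θ
  rw [intervalIntegral.integral_const_mul, intervalIntegral.integral_finsetSum (by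
    intro k _; exact ((ip_cont _).abs).intervalIntegrable _ _)] at e3
  simp_rw [int_abs_ip] at e3
  rw [← Finset.mul_sum, Finset.sum_range] at e3
  have e4 : ∑ k : Fin 14, ‖x0 (pv (k + 1)) - x0 (pv k)‖ ≤ 44.567 := by
    have h1 := Finset.sum_le_sum (fun k (_ : k ∈ Finset.univ) => edge_le k)
    simp only [dist_eq_norm] at h1
    refine h1.trans (le_of_eq ?_)
    rw [← Finset.sum_div, ← Nat.cast_sum, ub_sum]
    norm_num
  rw [e2] at e3
  linarith

end Pool.Agent.Helper685.Pack
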