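import Mathlib
import Pool.Agent.Helper685.Pack.Comb

set_option autoImplicit false

namespace Pool.Agent.Helper685.Pack

open Real

/-- support value of a lattice point, seen from sector `j` -/
noncomputable def G (j : Fin 6) (p : ℤ × ℤ) (t : ℝ) : ℝ :=
  √3 * F j p * cos t + (2 * F (j + 1) p - F j p) * sin t

lemma G_succ (j : Fin 6) (p : ℤ × ℤ) (t : ℝ) : G (j + 1) p t = G j p (t + π / 3) := by
  unfold G
  have h : (F (j + 1 + 1) p : ℝ) = F (j + 1) p - F j p := by
    have := F_rel j p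
    have e : (j + 1 + 1 : Fin 6) = j + 2 := by fin_cases j <;> rfl
    rw [e]
    have h2 : F (j + 2) p = F (j + 1) p - F j p := by omega
    rw [h2]; push_cast; ring
  rw [h, cos_add, sin_add, cos_pi_div_three, sin_pi_div_three]
  have h3 : √3 * √3 = 3 := mul_self_sqrt (by norm_num)
  linear_combination ((1 / 2) * (F j p : ℝ) * sin t) * h3

lemma G_cont (j : Fin 6) (p : ℤ × ℤ) : Continuous (G j p) := by
  unfold G; fun_prop

variable (C : Finset (ℤ × ℤ)) (hC : C.Nonempty)

/-- support function seen from sector `j` -/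
noncomputable def S (j : Fin 6) (t : ℝ) : ℝ := C.sup' hC (fun p => G j p t)

lemma S_cont (j : Fin 6) : Continuous (S C hC j) := by
  unfold S
  exact Continuous.finset_sup'_apply hC (fun p _ => G_cont j p)

lemma S_succ (j : Fin 6) (t : ℝ) : S C hC (j + 1) t = S C hC j (t + π / 3) := by
  unfold S
  congr 1
  funext p
  exact G_succ j p t

lemma le_S (j : Fin 6) {p : ℤ × ℤ} (hp : p ∈ C) (t : ℝ) : G j p t ≤ S C hC j t :=
  Finset.le_sup' (fun p => G j p t) hp

lemma int_cs (α β a b : ℝ) : ∫ t in a..b, (α * cos t + β * sin t) =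
    α * (sin b - sin a) - β * (cos b - cos a) := by
  rw [intervalIntegral.integral_add (by apply Continuous.intervalIntegrable; fun_prop)
    (by apply Continuous.intervalIntegrable; fun_prop), intervalIntegral.integral_const_mul,
    intervalIntegral.integral_const_mul, integral_cos, integral_sin]
  ring

/-- lower bound for one sector, for an arbitrary splitting angle -/
lemma sector (j : Fin 6) {x y : ℤ}
    (hx : ∃ p ∈ C, F j p = H C hC j ∧ F (j + 1) p = H C hC (j + 1) - x)
    (hy : ∃ p ∈ C, F (j + 1) p = H C hC (j + 1) ∧ F j p = H C hC j - y)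
    {ψ : ℝ} (h0 : 0 ≤ ψ) (h1 : ψ ≤ π / 3) :
    (H C hC j : ℝ) + H C hC (j + 1) - 2 * x * (1 - cos ψ) - y * (2 - cos ψ - √3 * sin ψ) ≤
      ∫ t in (0 : ℝ)..(π / 3), S C hC j t := by
  obtain ⟨p, hp, hp1, hp2⟩ := hx
  obtain ⟨q, hq, hq1, hq2⟩ := hy
  have hint : ∀ a b : ℝ, IntervalIntegrable (S C hC j) MeasureTheory.volume a b :=
    fun a b => (S_cont C hC j).intervalIntegrable a b
  have hintG : ∀ (p : ℤ × ℤ) (a b : ℝ), IntervalIntegrable (G j p) MeasureTheory.volume a b :=
    fun p a b => (G_cont j p).intervalIntegrable a b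
  have e1 : ∫ t in (0 : ℝ)..ψ, G j p t ≤ ∫ t in (0 : ℝ)..ψ, S C hC j t :=
    intervalIntegral.integral_mono_on h0 (hintG p 0 ψ) (hint 0 ψ) (fun t _ => le_S C hC j hp t)
  have e2 : ∫ t in ψ..(π / 3), G j q t ≤ ∫ t in ψ..(π / 3), S C hC j t :=
    intervalIntegral.integral_mono_on h1 (hintG q _ _) (hint _ _) (fun t _ => le_S C hC j hq t)
  have e3 : ∫ t in (0 : ℝ)..(π / 3), S C hC j t =
      (∫ t in (0 : ℝ)..ψ, S C hC j t) + ∫ t in ψ..(π / 3), S C hC j t :=
    (intervalIntegral.integral_add_adjacent_intervals (hint _ _) (hint _ _)).symm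
  have i1 : ∫ t in (0 : ℝ)..ψ, G j p t = √3 * F j p * (sin ψ - sin 0) -
      (2 * F (j + 1) p - F j p) * (cos ψ - cos 0) := int_cs _ _ _ _
  have i2 : ∫ t in ψ..(π / 3), G j q t = √3 * F j q * (sin (π / 3) - sin ψ) -
      (2 * F (j + 1) q - F j q) * (cos (π / 3) - cos ψ) := int_cs _ _ _ _
  rw [i1, hp1, hp2, sin_zero, cos_zero] at e1
  rw [i2, hq1, hq2, sin_pi_div_three, cos_pi_div_three] at e2
  rw [e3]
  push_cast at e1 e2
  have h3 : √3 * √3 = 3 := mul_self_sqrt (by norm_num)
  refine le_trans (le_of_eq ?_) (add_le_add e1 e2)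
  linear_combination (-(1/2) * ((H C hC j : ℝ) - y)) * h3

/-- the full integral is the sum over the six sectors -/
lemma total : ∫ s in (0 : ℝ)..(2 * π), S C hC 0 s = ∑ j : Fin 6, ∫ t in (0 : ℝ)..(π / 3), S C hC j t := by
  have hint : ∀ a b : ℝ, IntervalIntegrable (S C hC 0) MeasureTheory.volume a b :=
    fun a b => (S_cont C hC 0).intervalIntegrable a b
  have h := intervalIntegral.sum_integral_adjacent_intervals (f := S C hC 0)
    (μ := MeasureTheory.volume) (a := fun k : ℕ => (k : ℝ) * (π / 3)) (n := 6)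
    (fun k _ => hint _ _)
  simp only [Nat.cast_zero, zero_mul] at h
  rw [show ((6 : ℕ) : ℝ) * (π / 3) = 2 * π by push_cast; ring] at h
  rw [← h, Finset.sum_range]
  have shift : ∀ (n : ℕ) (hn : n < 6) (t : ℝ), S C hC ⟨n, hn⟩ t = S C hC 0 (t + n * (π / 3)) := by
    intro n
    induction n with
    | zero => intro hn t; simp
    | succ n ih =>
      intro hn t
      have e : (⟨n + 1, hn⟩ : Fin 6) = ⟨n, by omega⟩ + 1 := by
        ext; simp [Fin.val_add]; omega
      rw [e, S_succ, ih (by omega)]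
      congr 1
      push_cast; ring
  apply Finset.sum_congr rfl
  intro j _
  have h1 : ∀ t, S C hC j t = S C hC 0 (t + (j : ℕ) * (π / 3)) := fun t => shift j j.2 t
  simp_rw [h1]
  rw [intervalIntegral.integral_comp_add_right (fun t => S C hC 0 t)]
  congr 1
  · ring
  · push_cast; ring

theorem lower (h54 : C.card = 54) : 44.6 ≤ ∫ s in (0 : ℝ)..(2 * π), S C hC 0 s := by
  obtain ⟨x, y, k, hd⟩ := exists_data C hC
  obtain ⟨E, hE0, hE, hcases⟩ := cases54 C hC h54 hd
  rw [total]
  have h3 : √3 * √3 = 3 := mul_self_sqrt (by norm_num)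
  have h3l : 1.73205 < √3 := by rw [Real.lt_sqrt (by norm_num)]; norm_num
  have h3u : √3 < 1.73206 := by rw [Real.sqrt_lt' (by norm_num)]; norm_num
  have hpi := Real.pi_pos
  -- middle split
  have mid : ∀ j, (H C hC j : ℝ) + H C hC (j + 1) - (2 - √3) * (x j + y j) ≤
      ∫ t in (0 : ℝ)..(π / 3), S C hC j t := by
    intro j
    have := sector C hC j (hd.xw j) (hd.yw j) (ψ := π / 6) (by positivity) (by linarith)
    rw [cos_pi_div_six, sin_pi_div_six] at this
    refine le_trans (le_of_eq ?_) this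
    ring
  have hmidsum : 2 * (A C hC : ℝ) - (2 - √3) * ((A C hC : ℝ) - E) ≤
      ∑ j : Fin 6, ∫ t in (0 : ℝ)..(π / 3), S C hC j t := by
    have h1 := Finset.sum_le_sum (fun j (_ : j ∈ Finset.univ) => mid j)
    refine le_trans (le_of_eq ?_) h1
    have h2 : ((∑ j, (x j + y j) : ℤ) : ℝ) = (A C hC : ℝ) - E := by rw [hE]; push_cast; ring
    rw [← h2]
    unfold A
    push_cast
    simp only [Fin.sum_univ_six]
    simp
    ring
  rcases hcases with h | ⟨h, hE'⟩ | ⟨h, hE'⟩ | ⟨h, hE'⟩ | ⟨h, hE', hx1, hy1⟩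
  · have h' : (26 : ℝ) ≤ A C hC := by exact_mod_cast h
    have hE0' : (0 : ℝ) ≤ E := by exact_mod_cast hE0
    nlinarith
  · have hE2 : (8 : ℝ) ≤ E := by exact_mod_cast hE'
    rw [h] at hmidsum
    push_cast at hmidsum
    nlinarith
  · have hE2 : (12 : ℝ) ≤ E := by exact_mod_cast hE'
    rw [h] at hmidsum
    push_cast at hmidsum
    nlinarith
  · have hE2 : (19 : ℝ) ≤ E := by exact_mod_cast hE'
    rw [h] at hmidsum
    push_cast at hmidsum
    nlinarith
  · -- exactly one of the numbers is two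
    have hsum : ∑ j, (x j + y j) = 13 := by rw [hE, h, hE']; norm_num
    have hex : ∃ j, (x j = 2 ∧ y j = 1) ∨ (x j = 1 ∧ y j = 2) := by
      by_contra hcon
      push Not at hcon
      have h13 := hsum
      simp only [Fin.sum_univ_six] at h13
      have a0 := hcon 0; have a1 := hcon 1; have a2 := hcon 2
      have a3 := hcon 3; have a4 := hcon 4; have a5 := hcon 5
      have b0 := hx1 0; have b1 := hx1 1; have b2 := hx1 2
      have b3 := hx1 3; have b4 := hx1 4; have b5 := hx1 5
      have c0 := hy1 0; have c1 := hy1 1; have c2 := hy1 2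
      have c3 := hy1 3; have c4 := hy1 4; have c5 := hy1 5
      omega
    obtain ⟨j0, hj0⟩ := hex
    -- the special angle
    set ψ := arcsin (5 / 13) with hψ
    have hsin : sin ψ = 5 / 13 := sin_arcsin (by norm_num) (by norm_num)
    have hcos : cos ψ = 12 / 13 := by
      rw [hψ, cos_arcsin, show (1 : ℝ) - (5 / 13) ^ 2 = (12 / 13) ^ 2 by norm_num]
      exact sqrt_sq (by norm_num)
    have hψ0 : 0 ≤ ψ := arcsin_nonneg.2 (by norm_num)
    have hψ1 : ψ ≤ π / 3 := by
      rw [hψ]
      apply (arcsin_le_iff_le_sin (by constructor <;> norm_num)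
        (by constructor <;> linarith)).2
      rw [sin_pi_div_three]
      linarith
    have hspec : (H C hC j0 : ℝ) + H C hC (j0 + 1) - (18 - 5 * √3) / 13 ≤
        ∫ t in (0 : ℝ)..(π / 3), S C hC j0 t := by
      rcases hj0 with ⟨e1, e2⟩ | ⟨e1, e2⟩
      · have := sector C hC j0 (hd.xw j0) (hd.yw j0) hψ0 hψ1
        rw [hcos, hsin, e1, e2] at this
        refine le_trans (le_of_eq ?_) this
        push_cast
        ring
      · have := sector C hC j0 (hd.xw j0) (hd.yw j0) (ψ := π / 3 - ψ) (by linarith) (by linarith)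
        rw [cos_sub, sin_sub, hcos, hsin, e1, e2, cos_pi_div_three, sin_pi_div_three] at this
        refine le_trans (le_of_eq ?_) this
        push_cast
        linear_combination (-(24 / 26)) * h3
    have hxy : (x j0 : ℝ) + y j0 = 3 := by
      rcases hj0 with ⟨e1, e2⟩ | ⟨e1, e2⟩ <;> rw [e1, e2] <;> norm_num
    have key : ∑ j, ((H C hC j : ℝ) + H C hC (j + 1) - (2 - √3) * (x j + y j)) +
        ((2 - √3) * 3 - (18 - 5 * √3) / 13) ≤ ∑ j : Fin 6, ∫ t in (0 : ℝ)..(π / 3), S C hC j t := by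
      rw [← Finset.add_sum_erase _ _ (Finset.mem_univ j0),
        ← Finset.add_sum_erase _ (fun j => ∫ t in (0 : ℝ)..(π / 3), S C hC j t) (Finset.mem_univ j0)]
      have h1 := Finset.sum_le_sum (fun j (_ : j ∈ Finset.univ.erase j0) => mid j)
      have h2 : (H C hC j0 : ℝ) + H C hC (j0 + 1) - (2 - √3) * (x j0 + y j0) +
          ((2 - √3) * 3 - (18 - 5 * √3) / 13) ≤ ∫ t in (0 : ℝ)..(π / 3), S C hC j0 t := by
        rw [hxy]; linarith
      linarith
    have hval : ∑ j, ((H C hC j : ℝ) + H C hC (j + 1) - (2 - √3) * (x j + y j)) =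
        2 * 24 - (2 - √3) * 13 := by
      have h2 : ((∑ j, (x j + y j) : ℤ) : ℝ) = 13 := by rw [hsum]; norm_num
      have h4 : ((A C hC : ℤ) : ℝ) = 24 := by rw [h]; norm_num
      rw [← h2, ← h4]
      unfold A
      push_cast
      simp only [Fin.sum_univ_six]
      simp
      ring
    rw [hval] at key
    linarith

end Pool.Agent.Helper685.Pack
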