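import Mathlib
import Pool.Agent.Helper685.Pack.Config
import Pool.Agent.Helper685.Pack.Sector

set_option autoImplicit false

namespace Pool.Agent.Helper685.Pack

open MeasureTheory Real Set

lemma ip_add (v w : EuclideanSpace ℝ (Fin 2)) (θ : ℝ) : ip (v + w) θ = ip v θ + ip w θ := by
  unfold ip; simp; ring

lemma ip_smul (c : ℝ) (v : EuclideanSpace ℝ (Fin 2)) (θ : ℝ) : ip (c • v) θ = c * ip v θ := by
  unfold ip; simp; ring

lemma ip_int_shift (p : EuclideanSpace ℝ (Fin 2)) (δ : ℝ) :
    ∫ s in (0 : ℝ)..(2 * π), ip p (s + δ) = 0 := by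
  rw [intervalIntegral.integral_comp_add_right (fun t => ip p t)]
  unfold ip
  have := int_cs (p 0) (p 1) (0 + δ) (2 * π + δ)
  rw [this, zero_add, show 2 * π + δ = δ + 2 * π by ring, sin_add_two_pi, cos_add_two_pi]
  ring

/-- lower bound for lattice configurations, basis in positive position -/
lemma lattice_pos (c : Fin 54 → EuclideanSpace ℝ (Fin 2)) (hc : Function.Injective c)
    (p u v : EuclideanSpace ℝ (Fin 2)) (a b : Fin 54 → ℤ)
    (hcab : ∀ i, c i = p + ((2 : ℝ) * (a i : ℝ)) • u + ((2 : ℝ) * (b i : ℝ)) • v)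
    (α β : ℝ) (hu : ∀ θ, ip u θ = cos (θ - α)) (hv : ∀ θ, ip v θ = cos (θ - β))
    (h1 : cos (β - α) = 1 / 2) (h2 : sin (β - α) = √3 / 2) :
    44.6 ≤ ∫ θ in (-π)..π, sp c θ := by
  classical
  set C : Finset (ℤ × ℤ) := Finset.univ.image (fun i => (a i, b i)) with hCdef
  have hinj : Function.Injective (fun i => (a i, b i)) := by
    intro i j hij
    apply hc
    simp only [Prod.mk.injEq] at hij
    rw [hcab i, hcab j, hij.1, hij.2]
  have h54 : C.card = 54 := by
    rw [hCdef, Finset.card_image_of_injective _ hinj]; simp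
  have hC : C.Nonempty := by
    rw [← Finset.card_pos, h54]; norm_num
  have hlow := lower C hC h54
  refine hlow.trans ?_
  set δ := α - π / 6 with hδ
  have hG : ∀ i s, G 0 (a i, b i) s = ip (c i) (s + δ) - ip p (s + δ) := by
    intro i s
    rw [hcab i, ip_add, ip_add, ip_smul, ip_smul, hu, hv]
    have e1 : s + δ - α = s - π / 6 := by rw [hδ]; ring
    have e2 : s + δ - β = (s - π / 6) - (β - α) := by rw [hδ]; ring
    rw [e1, e2, cos_sub (s - π / 6) (β - α), h1, h2, cos_sub, sin_sub, cos_pi_div_six,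
      sin_pi_div_six]
    unfold G
    simp only [F, zero_add]
    have h3 : √3 * √3 = 3 := mul_self_sqrt (by norm_num)
    push_cast
    linear_combination (-(1 / 2) * (b i : ℝ) * sin s) * h3
  have hS : ∀ s, S C hC 0 s ≤ sp c (s + δ) - ip p (s + δ) := by
    intro s
    unfold S
    apply Finset.sup'_le
    intro q hq
    obtain ⟨i, _, rfl⟩ := Finset.mem_image.1 hq
    rw [hG]
    have := le_sp c i (s + δ)
    linarith
  have hspc := sp_cont c
  have i1 : IntervalIntegrable (fun s => sp c (s + δ)) volume 0 (2 * π) :=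
    (hspc.comp (continuous_id.add continuous_const)).intervalIntegrable _ _
  have i2 : IntervalIntegrable (fun s => ip p (s + δ)) volume 0 (2 * π) :=
    ((ip_cont p).comp (continuous_id.add continuous_const)).intervalIntegrable _ _
  have e3 : ∫ s in (0 : ℝ)..(2 * π), S C hC 0 s ≤
      ∫ s in (0 : ℝ)..(2 * π), (sp c (s + δ) - ip p (s + δ)) := by
    apply intervalIntegral.integral_mono_on (by positivity)
    · exact (S_cont C hC 0).intervalIntegrable _ _
    · exact i1.sub i2
    · intro s _; exact hS s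
  rw [intervalIntegral.integral_sub i1 i2, ip_int_shift, sub_zero,
    intervalIntegral.integral_comp_add_right (fun t => sp c t)] at e3
  have e4 := (sp_per c).intervalIntegral_add_eq (0 + δ) (-π)
  rw [show 0 + δ + 2 * π = 2 * π + δ by ring, show -π + 2 * π = π by ring] at e4
  rw [← e4]
  exact e3

lemma lattice_lower (c : Fin 54 → EuclideanSpace ℝ (Fin 2)) (hc : Function.Injective c)
    (p u v : EuclideanSpace ℝ (Fin 2)) (hu : ‖u‖ = 1) (hv : ‖v‖ = 1) (huv : ‖u - v‖ = 1)
    (h : ∀ i, ∃ a b : ℤ, c i = p + ((2 : ℝ) * (a : ℝ)) • u + ((2 : ℝ) * (b : ℝ)) • v) :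
    44.6 ≤ ∫ θ in (-π)..π, sp c θ := by
  choose a b hab using h
  obtain ⟨α, ha0, ha1⟩ := polar_form u
  obtain ⟨β, hb0, hb1⟩ := polar_form v
  rw [hu, one_mul] at ha0 ha1
  rw [hv, one_mul] at hb0 hb1
  have hu' : ∀ θ, ip u θ = cos (θ - α) := by
    intro θ; unfold ip; rw [ha0, ha1, cos_sub]; ring
  have hv' : ∀ θ, ip v θ = cos (θ - β) := by
    intro θ; unfold ip; rw [hb0, hb1, cos_sub]; ring
  have hcos : cos (β - α) = 1 / 2 := by
    have h1 : ‖u - v‖ ^ 2 = 1 := by rw [huv]; norm_num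
    rw [normsq] at h1
    simp only [PiLp.sub_apply, ha0, ha1, hb0, hb1] at h1
    rw [cos_sub]
    have s1 := sin_sq_add_cos_sq α
    have s2 := sin_sq_add_cos_sq β
    nlinarith
  have hsin : sin (β - α) = √3 / 2 ∨ sin (β - α) = -(√3 / 2) := by
    have s1 := sin_sq_add_cos_sq (β - α)
    rw [hcos] at s1
    have h3 : √3 * √3 = 3 := mul_self_sqrt (by norm_num)
    have : (sin (β - α) - √3 / 2) * (sin (β - α) + √3 / 2) = 0 := by nlinarith
    rcases mul_eq_zero.1 this with h | h
    · left; linarith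
    · right; linarith
  rcases hsin with hs | hs
  · exact lattice_pos c hc p u v a b hab α β hu' hv' hcos hs
  · refine lattice_pos c hc p v u b a ?_ β α hv' hu' ?_ ?_
    · intro i
      rw [hab i]; abel
    · rw [← cos_neg, neg_sub, hcos]
    · rw [show α - β = -(β - α) by ring, sin_neg, hs, neg_neg]

theorem main : ¬ (∀ n : ℕ, ∀ r : ℝ, 2 / Real.sqrt 3 < r →
      ∀ c : Fin n → EuclideanSpace ℝ (Fin 2),
        (Pairwise fun j k => (2 : ℝ) ≤ dist (c j) (c k)) →
        (∀ x : Fin n → EuclideanSpace ℝ (Fin 2),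
            (Pairwise fun j k => (2 : ℝ) ≤ dist (x j) (x k)) →
            volume (⋃ i, Metric.closedBall (c i) r) ≤
              volume (⋃ i, Metric.closedBall (x i) r)) →
        ∃ p u v : EuclideanSpace ℝ (Fin 2),
          ‖u‖ = 1 ∧ ‖v‖ = 1 ∧ ‖u - v‖ = 1 ∧
          ∀ i, ∃ a b : ℤ, c i = p + ((2 : ℝ) * (a : ℝ)) • u + ((2 : ℝ) * (b : ℝ)) • v) := by
  intro hyp
  set r : ℝ := 1000000 with hr
  have hpi := pi_pos
  have hpi1 := pi_gt_d2
  have hpi2 := pi_lt_d2
  have hupp : volume (U x0 r) ≤ ENNReal.ofReal (π * r ^ 2 + 44.567 * r + 64 * π) := by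
    refine (area_le x0 x0_norm (by rw [hr]; norm_num)).trans (ENNReal.ofReal_le_ofReal ?_)
    have := upper
    nlinarith
  obtain ⟨c, hsep, hc0, hcn, hmin⟩ := exists_min r 30 x0 x0_sep (by
    rintro x ⟨i, j, hij⟩
    have h1 := far_area x (r := r) (D := 30) (by norm_num) (by rw [hr]; norm_num) hij
    refine lt_of_le_of_lt hupp (lt_of_lt_of_le ?_ h1)
    rw [ENNReal.ofReal_lt_ofReal_iff (by positivity)]
    rw [hr]
    nlinarith)
  have hr3 : 2 / Real.sqrt 3 < r := by
    rw [div_lt_iff₀ (by positivity)]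
    have : (1 : ℝ) ≤ √3 := by rw [Real.one_le_sqrt]; norm_num
    rw [hr]; linarith
  obtain ⟨p, u, v, hu, hv, huv, hlat⟩ := hyp 54 r hr3 c hsep hmin
  have hinj : Function.Injective c := by
    intro i j hij
    by_contra hne
    have := hsep hne
    simp only [hij, dist_self] at this
    norm_num at this
  have hl := lattice_lower c hinj p u v hu hv huv hlat
  have hge := area_ge c (r := r) (R := 30) hcn (by rw [hr]; norm_num) (by rw [hr]; norm_num) hc0
  have hle := hge.trans ((hmin x0 x0_sep).trans hupp)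
  rw [ENNReal.ofReal_le_ofReal_iff (by positivity)] at hle
  have : r * 44.6 ≤ r * ∫ θ in (-π)..π, sp c θ :=
    mul_le_mul_of_nonneg_left hl (by rw [hr]; norm_num)
  rw [hr] at this hle
  nlinarith

end Pool.Agent.Helper685.Pack
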